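import Pool.Agent.P.MP_b7c14b_al.S.Loop

/-! Simple automorphic loops whose multiplication group is of affine type are groups. -/

namespace Pool.Agent.ALoop.S

open Subgroup Pool.Agent.P.MP_11c1cd_al Equiv

section Lie

variable {A : Type} [AddCommGroup A] {B : A →+ A →+ A}

theorem anti (alt : ∀ x, B x x = 0) (x y : A) : B x y = -B y x := by
  have := alt (x + y)
  simp only [map_add, AddMonoidHom.add_apply, alt, zero_add, add_zero] at this
  exact eq_neg_of_add_eq_zero_right this

variable (alt : ∀ x, B x x = 0)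
  (aut : ∀ x u w, B (u + B x u) (w + B x w) = B u w + B x (B u w))

include aut in
theorem lie0 (x u w : A) : B (B x u) (B x w) = B x (B u w) - B (B x u) w - B u (B x w) := by
  have := aut x u w
  simp only [map_add, AddMonoidHom.add_apply] at this
  linear_combination (norm := abel) this

include aut in
theorem lie13 (x u x' w : A) : B (B x u) (B x' w) = -B (B x' u) (B x w) := by
  have := lie0 aut (x + x') u w
  simp only [map_add, AddMonoidHom.add_apply, lie0 aut x u w, lie0 aut x' u w] at this
  linear_combination (norm := abel) this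

include alt aut

theorem lie1 (x u w : A) : B (B x u) (B x w) = 0 := by
  rw [anti alt x u, map_neg, AddMonoidHom.neg_apply, lie13 aut, alt, map_zero,
    AddMonoidHom.zero_apply, neg_zero, neg_zero]

theorem jac (x u w : A) : B x (B u w) = B (B x u) w + B u (B x w) := by
  have := lie0 aut x u w
  rw [lie1 alt aut] at this
  linear_combination (norm := abel) -this

theorem lie2 (x y w z : A) : B (B x y) (B w z) + B (B x y) (B w z) = 0 := by
  have h1 := lie13 aut x y w z
  have h2 := lie13 aut y w z x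
  have h3 := anti alt (B x y) (B w z)
  rw [anti alt y w, anti alt z x, anti alt z w, anti alt y x] at h2
  simp only [map_neg, AddMonoidHom.neg_apply, neg_neg] at h2
  linear_combination (norm := abel) h1 + h3 - h2

theorem lie3 (two : ∀ x : A, -x = x) (x y z : A) : B (B x y) (B (B x y) z) = 0 := by
  have sy : ∀ x y, B x y = B y x := fun x y => by rw [anti alt, two]
  have h1 := lie1 alt aut x (B y z) y
  rw [jac alt aut x y z, map_add, AddMonoidHom.add_apply, sy x y, sy y (B x z), sy (B x z) y,
    lie1 alt aut y, add_zero, sy y x] at h1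
  rw [sy, h1]

theorem lie4 {a : A} (h : ∀ z, B a (B a z) = 0) (v z : A) : B a (B v (B a z)) = 0 := by
  rw [jac alt aut, h, map_zero, add_zero, lie1 alt aut]

end Lie

noncomputable section

variable {Q : Type} [Mul Q] [One Q] [IsALoop Q] [Finite Q]

theorem aff_core [AddCommGroup Q] (hS : IsSimple Q) (h0 : (1 : Q) = 0)
    (hH : ∀ η ∈ inn Q, ∀ x y, η (x + y) = η x + η y) (hs : ∀ x y, iv Q (x + y) = iv Q x + iv Q y)
    (hT : ∀ x, ∃ v ∈ mlt Q, ∀ y, v y = x + y) (x y z : Q) : x * y * z = x * (y * z) := by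
  have hφ : ∀ x : Q, ∃ φ ∈ inn Q, ∀ y, x * y = x + φ y := fun x => by
    obtain ⟨v, hv, e⟩ := hT x
    refine ⟨_, dec (lm_mem x) hv (by rw [e, lm_app, rone, h0, add_zero]), fun y => ?_⟩
    rw [← e, Perm.mul_apply, ai, lm_app]
  have hψ : ∀ x : Q, ∃ φ ∈ inn Q, ∀ y, y * x = x + φ y := fun x => by
    obtain ⟨v, hv, e⟩ := hT x
    refine ⟨_, dec (rm_mem x) hv (by rw [e, rm_app, lone, h0, add_zero]), fun y => ?_⟩
    rw [← e, Perm.mul_apply, ai, rm_app]
  choose φ hφ eφ using hφ
  let B : Q →+ Q →+ Q := AddMonoidHom.mk'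
    (fun x => AddMonoidHom.mk' (fun y => x * y - x - y) fun u w => by
      rw [eφ, eφ, eφ, hH _ (hφ x)]; abel) fun u w => AddMonoidHom.ext fun y => by
      obtain ⟨ψ, h1, e⟩ := hψ y
      show (u + w) * y - (u + w) - y = u * y - u - y + (w * y - w - y)
      rw [e, e, e, hH _ h1]; abel
  have eB : ∀ x y, x * y = x + y + B x y := fun x y => by
    show _ = x + y + (x * y - x - y)
    abel
  have e1 : ∀ x y, φ x y = y + B x y := fun x y =>
    add_left_cancel (a := x) (by rw [← eφ, eB, add_assoc])
  have e2 : ∀ η ∈ inn Q, ∀ x y, η (B x y) = B (η x) (η y) := fun η h x y => by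
    have := au h x y
    rw [eB, eB, hH _ h, hH _ h] at this
    exact add_left_cancel this
  have sub : ∀ U : AddSubgroup Q, (∀ η ∈ inn Q, ∀ x ∈ U, η x ∈ U) → (∀ x ∈ U, x = 0) ∨ ∀ x, x ∈ U :=
    fun U hU => (hS.2 U ⟨sub_of_mul (h0 ▸ U.zero_mem) fun a ha b hb =>
      (eφ a b).symm ▸ U.add_mem ha (hU _ (hφ a) b hb), fun η h h1 => hU η ⟨h, h1⟩⟩).imp
      (fun h x hx => h0 ▸ h.le hx) fun h x => h.ge trivial
  have hn : ∀ η ∈ inn Q, ∀ x, η (-x) = -η x := fun η h x =>
    map_neg (AddMonoidHom.mk' η (hH η h)) x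
  let σ : Q →+ Q := AddMonoidHom.mk' (iv Q) hs
  have s1 : ∀ x, x + σ x + B x (σ x) = 0 := fun x => by rw [← eB, ← h0]; exact mul_iv x
  have alt : ∀ x, B x x = 0 := by
    obtain h | h := sub (σ.eqLocus (-AddMonoidHom.id Q)) fun η h x hx => by
      have := congrArg (· x) (com_iv h).eq
      simp only [Perm.mul_apply] at this
      show iv Q (η x) = -η x
      rw [← this, ← hn η h]
      exact congrArg η hx
    · have s2 : ∀ x, σ x = x := fun x => by
        have := h (x - σ x) (by
          show σ (x - σ x) = -(x - σ x)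
          rw [map_sub, show σ (σ x) = x from iv_iv x, neg_sub])
        exact (sub_eq_zero.1 this).symm
      have s3 : ∀ x : Q, x + x = 0 → x = 0 := fun x e =>
        h x ((s2 x).trans (eq_neg_of_add_eq_zero_left e))
      intro x
      have s4 := s1 (x + x)
      have s5 := s1 x
      simp only [s2, map_add, AddMonoidHom.add_apply] at s4 s5
      exact s3 _ (by linear_combination (norm := abel) s4 - s5 - s5)
    · intro x
      have := s1 x
      rw [show σ x = -x from h x, add_neg_cancel, zero_add, map_neg] at this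
      exact neg_eq_zero.1 this
  have aut : ∀ x u w, B (u + B x u) (w + B x w) = B u w + B x (B u w) := fun x u w => by
    rw [← e1, ← e1, ← e1, e2 _ (hφ x)]
  suffices h : ∀ x y z, B (B x y) z = 0 by
    have h1 := h y z x
    rw [anti alt, neg_eq_zero] at h1
    rw [eB, eB x y, eB x, eB y z]
    simp only [map_add, AddMonoidHom.add_apply, h, h1]
    abel
  obtain h | h := sub ((AddMonoidHom.id Q).eqLocus (-AddMonoidHom.id Q)) fun η h x hx => by
    show η x = -η x
    rw [← hn η h]
    exact congrArg η hx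
  · have s3 : ∀ x y w z, B (B x y) (B w z) = 0 := fun x y w z =>
      h _ (eq_neg_of_add_eq_zero_left (lie2 alt aut x y w z))
    obtain h1 | h1 := sub (⨅ x, ⨅ y, (B (B x y)).ker) fun η h z hz => by
      simp only [AddSubgroup.mem_iInf, AddMonoidHom.mem_ker] at hz ⊢
      intro x y
      rw [← ai η x, ← ai η y, ← e2 η h, ← e2 η h, hz, ← h0, inn_one h]
    · intro x y z
      have := h1 (B x y) (by
        simp only [AddSubgroup.mem_iInf, AddMonoidHom.mem_ker]
        exact fun w z => s3 w z x y)
      rw [this, map_zero, AddMonoidHom.zero_apply]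
    · intro x y z
      have := h1 z
      simp only [AddSubgroup.mem_iInf, AddMonoidHom.mem_ker] at this
      exact this x y
  · have two : ∀ x : Q, -x = x := fun x => (h x).symm
    have tw : ∀ x : Q, x + x = 0 := fun x => by rw [← neg_add_cancel x, two]
    have hd : 2 ∣ Nat.card Q := by
      obtain ⟨a, ha⟩ := hS.1.exists_pair_ne.imp fun a h => h.imp fun b h => sub_ne_zero.2 h
      obtain ⟨b, hb⟩ := ha
      rw [← addOrderOf_eq_prime (p := 2) (by rw [two_nsmul, tw]) hb]
      exact addOrderOf_dvd_natCard _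
    have sq : ∀ x y, φ (B x y) * φ (B x y) = 1 := fun x y => Perm.ext fun z => by
      rw [Perm.mul_apply, e1, e1, map_add, lie3 alt aut two, add_zero, add_assoc, tw, add_zero,
        Perm.one_apply]
    intro x y z
    have h1 : φ (B x y) ∈ Op 2 (inn Q) := bs1 (hφ _) fun η hη => by
      have e : η * φ (B x y) * η⁻¹ = φ (B (η x) (η y)) := Perm.ext fun z => by
        rw [Perm.mul_apply, Perm.mul_apply, e1, e1, hH _ hη, e2 _ hη, e2 _ hη, ai]
      rw [e]
      refine dih (sq _ _) (sq _ _) (k := 2) (Perm.ext fun z => ?_)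
      have a1 := lie3 alt aut two x y
      have a2 := lie3 alt aut two (η x) (η y)
      have a3 := lie4 alt aut a1
      have a4 := lie4 alt aut a2
      generalize B x y = a at *
      generalize B (η x) (η y) = b at *
      have a5 : ∀ z, (φ a * φ b * (φ a * φ b)) z = z + (B a (B b z) + B b (B a z)) := fun z => by
        simp only [Perm.mul_apply, e1, map_add, a1, a2, a3, a4, map_zero]
        linear_combination (norm := abel) tw (B a z) + tw (B b z) + tw (B a (B b z))
      rw [show 2 ^ 2 = 2 * 2 from rfl, pow_mul, pow_two, pow_two, Perm.mul_apply, a5, a5]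
      simp only [map_add, a1, a2, a3, a4, map_zero, add_zero, Perm.one_apply]
      rw [add_assoc, tw, add_zero]
    rw [op_inn hS hd, mem_bot] at h1
    have := e1 (B x y) z
    rw [h1, Perm.one_apply] at this
    exact left_eq_add.1 this

theorem affine (hS : IsSimple Q) {p : ℕ} [Fact p.Prime] (h : Op p (mlt Q) ≠ ⊥) (x y z : Q) :
    x * y * z = x * (y * z) := by
  let V := Op p (mlt Q) ⊓ centralizer (Op p (mlt Q) : Set (Perm Q))
  have n1 : normalizer (mlt Q : Set (Perm Q)) ≤ normalizer (V : Set (Perm Q)) := fun g hg => by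
    have hg' := normalizer_le_normalizer_Op p _ hg
    refine mem_normalizer_fintype fun z hz => ⟨conj_mem hg' hz.1, fun y hy => ?_⟩
    have := hz.2 _ (conj_mem' hg' hy)
    calc y * (g * z * g⁻¹) = g * (g⁻¹ * y * g * z) * g⁻¹ := by group
      _ = _ := by rw [this]; group
  have n2 : V ≠ ⊥ := by
    have := (Subgroup.nontrivial_iff_ne_bot _).2 h
    obtain ⟨⟨a, ha⟩, h1⟩ := @exists_ne _ (isPGroup_Op p (mlt Q)).center_nontrivial 1
    intro e
    have : a.1 ∈ V := ⟨a.2, fun y hy => congrArg Subtype.val (mem_center_iff.1 ha ⟨y, hy⟩)⟩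
    rw [e, mem_bot] at this
    exact h1 (Subtype.ext (Subtype.ext this))
  have vle : V ≤ mlt Q := inf_le_left.trans (Op_le _ _)
  choose v hv ev using trans_of_ne hS vle (le_normalizer.trans n1) n2
  have c : ∀ a ∈ V, ∀ b ∈ V, Commute a b := fun a ha b hb => hb.2 a ha.1
  have u : ∀ a ∈ V, ∀ y, v (a 1) y = a y := fun a ha y => by
    calc _ = (v (a 1) * v y) 1 := by rw [Perm.mul_apply, ev]
      _ = (a * v y) 1 := by
        rw [(c _ (hv _) _ (hv y)).eq, (c _ ha _ (hv y)).eq, Perm.mul_apply, ev, Perm.mul_apply]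
      _ = _ := by rw [Perm.mul_apply, ev]
  have add : ∀ g ∈ normalizer (V : Set (Perm Q)), g 1 = 1 → ∀ x y,
      g (v x y) = v (g x) (g y) := fun g hg h1 x y => by
    have := u _ (conj_mem hg (hv x)) (g y)
    simp only [Perm.mul_apply, ia] at this
    rw [← this, Perm.inv_eq_iff_eq.2 h1.symm, ev]
  let _ : Add Q := ⟨fun x y => v x y⟩
  let _ : Zero Q := ⟨1⟩
  let _ : Neg Q := ⟨fun x => (v x)⁻¹ 1⟩
  let _ : AddGroup Q := AddGroup.ofLeftAxioms
    (fun a b d => by
      have := u _ (mul_mem (hv a) (hv b)) d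
      rwa [Perm.mul_apply, ev] at this)
    (fun a => u 1 (one_mem _) a)
    (fun a => (u _ (inv_mem (hv a)) a).trans (Perm.inv_eq_iff_eq.2 (ev a).symm))
  let _ : AddCommGroup Q := ⟨fun a b => by
    have := congrArg (· 1) (c _ (hv a) _ (hv b)).eq
    simp only [Perm.mul_apply, ev] at this
    exact this⟩
  exact aff_core hS rfl (fun η hη => add η (n1 (le_normalizer hη.1)) hη.2)
    (add _ (n1 (mem_normalizer_fintype fun g hg => iv_cj hg)) iv_one)
    (fun x => ⟨v x, vle (hv x), fun y => rfl⟩) x y z

end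

end Pool.Agent.ALoop.S
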