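import Pool.Agent.P.MP_b7c14b_al.S.Fin
import Pool.Agent.P.MP_b7c14b_al.Main

/-! Sylow subloops in all finite automorphic loops. -/

namespace Pool.Agent.ALoop.S

open Subgroup Equiv

theorem sylow {Q : Type} [Mul Q] [One Q] [IsALoop Q] [Finite Q] {p : ℕ} (hp : p.Prime) :
    HasSylow Q p := by
  refine Good.sylow hp ?_
  rintro S _ _ h1 h2 ⟨B, f, -, -, hs⟩
  have : Finite S := Finite.of_surjective f fun y => by
    obtain ⟨x, -, hx⟩ := hs.ge (Set.mem_univ y)
    exact ⟨x, hx⟩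
  exact simple_assoc h2

theorem isALoop_of {Q : Type} [Mul Q] [One Q] (h0 : ∀ a : Q, 1 * a = a ∧ a * 1 = a)
    (hl : ∀ a b : Q, ∃! x : Q, a * x = b) (hr : ∀ a b : Q, ∃! y : Q, y * a = b)
    (hT : ∀ x u v z₁ z₂ z₃ : Q, z₁ * x = x * u → z₂ * x = x * v →
      z₃ * x = x * (u * v) → z₃ = z₁ * z₂)
    (hL : ∀ x y u v z₁ z₂ z₃ : Q, (y * x) * z₁ = y * (x * u) → (y * x) * z₂ = y * (x * v) →
      (y * x) * z₃ = y * (x * (u * v)) → z₃ = z₁ * z₂)
    (hR : ∀ x y u v z₁ z₂ z₃ : Q, z₁ * (x * y) = (u * x) * y → z₂ * (x * y) = (v * x) * y →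
      z₃ * (x * y) = ((u * v) * x) * y → z₃ = z₁ * z₂) : IsALoop Q := by
  let l : Q → Perm Q := fun a => Equiv.ofBijective (a * ·)
    ⟨fun x y h => (hl a (a * y)).unique h rfl, fun b => (hl a b).exists⟩
  let r : Q → Perm Q := fun a => Equiv.ofBijective (· * a)
    ⟨fun x y h => (hr a (y * a)).unique h rfl, fun b => (hr a b).exists⟩
  have el : ∀ a x, l a x = a * x := fun _ _ => rfl
  have er : ∀ a x, r a x = x * a := fun _ _ => rfl
  let A : Subgroup (Perm Q) :=
    { carrier := {φ | ∀ x y, φ (x * y) = φ x * φ y}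
      one_mem' := fun _ _ => rfl
      mul_mem' := fun {a b} ha hb x y => by
        rw [Perm.mul_apply, hb, ha]; rfl
      inv_mem' := fun {a} ha x y => a.injective (by rw [ha, ai, ai, ai]) }
  have aT : ∀ x, (r x)⁻¹ * l x ∈ A := fun x u v =>
    hT x u v _ _ _ (ai (r x) _) (ai (r x) _) (ai (r x) _)
  have aL : ∀ x y, (l (y * x))⁻¹ * (l y * l x) ∈ A := fun x y u v =>
    hL x y u v _ _ _ (ai (l _) _) (ai (l _) _) (ai (l _) _)
  have aR : ∀ x y, (r (x * y))⁻¹ * (r y * r x) ∈ A := fun x y u v =>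
    hR x y u v _ _ _ (ai (r _) _) (ai (r _) _) (ai (r _) _)
  let K : Subgroup (Perm Q) :=
    { carrier := {g | ∀ x, (l (g x))⁻¹ * g * l x ∈ A}
      one_mem' := fun x => by simp
      mul_mem' := fun {a b} ha hb x => by
        have := A.mul_mem (ha (b x)) (hb x)
        convert this using 1
        rw [Perm.mul_apply]; group
      inv_mem' := fun {a} ha x => by
        have := A.inv_mem (ha (a⁻¹ x))
        rw [ai] at this
        convert this using 1
        group }
  have hK : mlt Q ≤ K := by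
    rw [mlt, closure_le]
    rintro σ ⟨a, h | h⟩ x
    · rw [show σ = l a from Perm.ext h, mul_assoc]
      exact aL x a
    · rw [show σ = r a from Perm.ext h]
      have := A.mul_mem (A.mul_mem (A.inv_mem (aT (x * a))) (aR x a)) (aT x)
      convert this using 1
      rw [er]; group
  refine ⟨fun a => (h0 a).1, fun a => (h0 a).2, hl, hr, fun φ hφ h1 => ?_⟩
  have := hK hφ 1
  rwa [h1, show l 1 = 1 from Perm.ext fun x => (h0 x).1, inv_one, one_mul, mul_one] at this

end Pool.Agent.ALoop.S
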