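import Pool.Agent.P.MP_b7c14b_al.S.Loop

/-! Commutative automorphic loops of exponent two, seen as symmetric ternary systems. -/

namespace Pool.Agent.ALoop.S

open Subgroup Pool.Agent.P.MP_11c1cd_al Equiv

noncomputable section

variable {Q : Type}

/-- A symmetric ternary system with a group of automorphisms containing all translations. -/
structure Tern (G : Subgroup (Perm Q)) (b : Q → Q → Perm Q) : Prop where
  s1 : ∀ x y, b x y = b y x
  s2 : ∀ x y z, b x y z = b x z y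
  id : ∀ x, b x x = 1
  mem : ∀ x y, b x y ∈ G
  cj : ∀ g ∈ G, ∀ x y, g * b x y * g⁻¹ = b (g x) (g y)

/-- The involution attached to a triple. -/
def ze (b : Q → Q → Perm Q) (x y z : Q) : Perm Q := b z (b x y z) * (b x y)⁻¹

namespace Tern

variable {G : Subgroup (Perm Q)} {b : Q → Q → Perm Q} (T : Tern G b)
include T

theorem l (x y : Q) : b x y x = y := by rw [T.s2, T.id]; rfl

theorem r (x y : Q) : b x y y = x := by rw [T.s1, T.l]

theorem rot (x y z : Q) : b x y z = b y z x := by rw [T.s1, T.s2]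

theorem ap {g : Perm Q} (h : g ∈ G) (x y z : Q) : g (b x y z) = b (g x) (g y) (g z) := by
  rw [← T.cj g h, Perm.mul_apply, Perm.mul_apply, ia]

theorem fix {g : Perm Q} (h : g ∈ G) {x y z : Q} (hx : g x = x) (hy : g y = y)
    (hz : g (b x y z) = b x y z) : g z = z := by
  rw [T.ap h, hx, hy] at hz
  exact (b x y).injective hz

theorem zmem (x y z : Q) : ze b x y z ∈ G := mul_mem (T.mem _ _) (inv_mem (T.mem _ _))

theorem z12 (x y z : Q) : ze b x y z = ze b y x z := by rw [ze, ze, T.s1 x y]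

theorem zi (x y z : Q) : ze b z y x = (ze b x y z)⁻¹ := by
  have h : ∀ x y z, ze b x y z = b y z * b x y * (b y z)⁻¹ * (b x y)⁻¹ := fun x y z => by
    rw [T.cj _ (T.mem _ _), T.l, ← T.rot, T.s1 _ z, ze]
  rw [h, h, T.s1 z y, T.s1 y x]; group

theorem z13 (x y z : Q) : ze b z y x = ze b x y z := by
  rw [T.z12 x, T.zi z x, T.z12 z x, ← T.zi x z, T.z12 y]

theorem z23 (x y z : Q) : ze b x z y = ze b x y z := by rw [T.z12, T.z13, T.z12]

theorem zz (x y z w : Q) : ze b x y z (ze b x y z w) = w := by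
  nth_rw 1 [← T.z13, T.zi]
  exact ia _ _

omit T in
theorem a3 (x y z w : Q) : ze b x y z (b x y w) = b z (b x y z) w := by
  rw [ze, Perm.mul_apply, ia]

theorem a2 (x y z w : Q) : ze b x y z (b x z w) = b y (b x y z) w := by
  rw [← T.z23, a3, T.s2 x z]

theorem a1 (x y z w : Q) : ze b x y z (b y z w) = b x (b x y z) w := by
  rw [← T.z13, T.s1 y, a3, T.s1 z y, ← T.rot x y z]

theorem b3 (x y z w : Q) : ze b x y z (b z (b x y z) w) = b x y w := by rw [← a3, T.zz]

theorem clean (x y u : Q) : b u (b x y (b x y u)) * b u (b x y (b x y u)) = 1 := by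
  set v := b x y u with hv
  set w := b x y v with hw
  have key : ∀ c, ze b x y v (ze b x y u c) = b u w c ∧ ze b x y v (ze b x y u (b u w c)) = c := by
    intro c
    have hg : (b w c)⁻¹ * (ze b x y v * ze b x y u * b u c) ∈ G :=
      mul_mem (inv_mem (T.mem _ _)) (mul_mem (mul_mem (T.zmem _ _ _) (T.zmem _ _ _)) (T.mem _ _))
    have e : ∀ i j, ((b w c)⁻¹ * (ze b x y v * ze b x y u * b u c)) i = j ↔
        ze b x y v (ze b x y u (b i u c)) = b j w c := fun i j => by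
      rw [Perm.mul_apply, Perm.inv_eq_iff_eq, T.rot i, T.rot j]; rfl
    have e1 := (e x x).2 (by rw [T.a2, T.a1])
    have e2 := (e y y).2 (by rw [T.a1, T.a2])
    have e3 := (e v v).2 (by rw [T.s1 v u, T.b3, a3])
    have e4 := (e u u).1 (T.fix hg e1 e2 e3)
    have e5 := (e w w).1 (by rw [hw, T.ap hg, e1, e2, e3])
    rw [T.id] at e4 e5
    exact ⟨e4, by rwa [T.s1 u]⟩
  exact Perm.ext fun c => ((key _).1.symm.trans (key c).2)

theorem c1 (x y u v : Q) :
    ze b x y u (ze b x y v (b x y u)) = ze b x y v (b x y u) := by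
  set p := b x y u with hp
  set q := b x y v with hq
  have hg : (ze b x y v * b p v)⁻¹ * (ze b x y u * b u q) ∈ G :=
    mul_mem (inv_mem (mul_mem (T.zmem _ _ _) (T.mem _ _))) (mul_mem (T.zmem _ _ _) (T.mem _ _))
  have e : ∀ i, ((ze b x y v * b p v)⁻¹ * (ze b x y u * b u q)) i = i ↔
      ze b x y u (b i u q) = ze b x y v (b i v p) := fun i => by
    rw [Perm.mul_apply, Perm.inv_eq_iff_eq, T.rot i u, T.rot i v, T.s1 v]; rfl
  have e1 := (e x).2 (by rw [T.a2, T.a2, T.s2])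
  have e2 := (e y).2 (by rw [T.a1, T.a1, T.s2])
  have e3 := (e q).2 (by
    rw [T.s2, T.id, T.s1 q, T.b3, Perm.one_apply]
    nth_rw 2 [← T.l x u]
    rw [T.a2, ← T.rot])
  have e4 := (e v).1 (T.fix hg e1 e2 e3)
  rwa [T.id, T.s2, ← a3] at e4

theorem assoc (o x y u : Q) :
    (b u ((b x y)⁻¹ o))⁻¹ o = (b (b x y u) (ze b x y u o))⁻¹ o := by
  obtain ⟨v, rfl⟩ := (b x y).surjective o
  obtain ⟨c, hc⟩ := (b x y).surjective (ze b x y u (b x y v))
  have h1 : b u (b x y u) c = b x y v := by rw [← a3, hc, T.zz]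
  have h2 : ze b u (b x y u) v (b x y v) = b x y v := by
    nth_rw 1 [← h1]
    rw [a3, ← a3 x y u v, ← hc, T.rot, T.s1, ← a3, ← T.zz x y u (b x y v), ← hc, T.c1]
  rw [ia, eq_comm, Perm.inv_eq_iff_eq, a3, ← T.a2, ai, h2]

theorem card [Finite Q] [Nonempty Q] : ∃ k, Nat.card Q = 2 ^ k := by
  obtain ⟨o⟩ := ‹Nonempty Q›
  let _ : Mul Q := ⟨fun x y => (b x y)⁻¹ o⟩
  let _ : One Q := ⟨o⟩
  let _ : Inv Q := ⟨fun x => x⟩
  have h : ∀ x : Q, x * x = 1 := fun x => by
    show (b x x)⁻¹ o = o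
    rw [T.id]; rfl
  let _ : Group Q := Group.ofLeftAxioms
    (fun x y z => by
      show (b ((b x y)⁻¹ o) z)⁻¹ o = (b x ((b y z)⁻¹ o))⁻¹ o
      rw [T.s1, T.assoc, T.assoc, ← T.rot x, T.z12 y, T.z13])
    (fun x => Perm.inv_eq_iff_eq.2 (T.r o x).symm) h
  exact IsPGroup.iff_card.1 fun x => ⟨1, by rw [pow_one, pow_two, h]⟩

theorem inverted [Finite Q] {x y : Q} {n : Perm Q} (hn : n ∈ G) {q : ℕ} (hq : q.Prime)
    (ho : Odd q) (h1 : n ^ q = 1) (h2 : b x y * b x y = 1) (h3 : b x y * n * (b x y)⁻¹ = n⁻¹) :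
    n = 1 := by
  have : Fact q.Prime := ⟨hq⟩
  have : Nonempty Q := ⟨x⟩
  obtain ⟨u, hu⟩ := (pg_zpowers (k := 1) (by rwa [pow_one])).nonempty_fixed_point_of_prime_not_dvd_card
    Q (p := q) (by
      obtain ⟨k, hk⟩ := T.card
      rw [hk]
      intro h
      have := (Nat.prime_dvd_prime_iff_eq hq Nat.prime_two).1 (hq.dvd_of_dvd_pow h)
      rw [this] at ho
      exact absurd ho (by decide))
  have f3 : n u = u := hu ⟨n, mem_zpowers n⟩
  have sw : ∀ z, n z = z → n (b x y z) = b x y z := fun z hz => by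
    have := congrArg (· (b x y z)) h3
    simp only [Perm.mul_apply, ia, hz] at this
    rw [eq_comm, Perm.inv_eq_iff_eq] at this
    exact this.symm
  have odd : ∀ n : Perm Q, n ^ q = 1 → ∀ z, n (n z) = z → n z = z := fun n h1 z hz => by
    obtain ⟨k, rfl⟩ := ho
    have h4 : (n * n) ^ k ∈ MulAction.stabilizer (Perm Q) z := pow_mem hz k
    have := congrArg (· z) h1
    rw [pow_succ', pow_mul, pow_two] at this
    simp only [Perm.mul_apply] at this
    rwa [show ((n * n) ^ k) z = z from h4] at this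
  have f4 := sw u f3
  have e0 : b (n x) (n y) u = b x y u := by rw [← f3, ← T.ap hn, f4, f3]
  have e1 : ∀ w, ze b (n x) (n y) u (ze b x y u w) = (n * n) w := by
    have c := T.cj n hn u (b x y u)
    rw [f3, f4] at c
    intro w
    obtain ⟨w, rfl⟩ := (b u (b x y u)).surjective w
    have e : b x y = b (n x) (n y) * (n * n) := by
      rw [← T.cj n hn]
      calc _ = n * (b x y * n * (b x y)⁻¹) * b x y * n⁻¹ * n := by rw [h3]; group
        _ = _ := by group
    have c' : Commute n (b u (b x y u)) := mul_inv_eq_iff_eq_mul.1 c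
    rw [T.b3]
    nth_rw 1 [e]
    rw [Perm.mul_apply, a3, e0, ← Perm.mul_apply, ← (c'.mul_left c').eq, Perm.mul_apply]
  have e2 : ze b x y u (b x u (n x)) = ze b (n x) (n y) u (b y u (n y)) := by
    rw [T.a2, T.rot y u, T.s1 u, T.a1, e0, T.rot, T.s1]
  have e3 : ze b x y u (b y u (n y)) = ze b (n x) (n y) u (b x u (n x)) := by
    rw [T.a1, T.rot x u, T.s1 u, T.a2, e0, T.rot, T.s1]
  have e4 := odd n h1 _ (odd (n * n) (by rw [← pow_two, ← pow_mul, mul_comm, pow_mul, h1, one_pow])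
    (b x u (n x)) (by rw [← e1, ← e1, e2, T.zz, e3, T.zz]))
  rw [T.ap hn, f3, T.rot x u, T.rot u] at e4
  have e5 := odd n h1 x (by simpa only [T.s1 u] using (b (n x) u).injective (e4.trans (T.s2 _ _ _)))
  have e6 := sw x e5
  rw [T.l] at e6
  have e7 := T.cj n hn x y
  rw [e5, e6, mul_inv_eq_iff_eq_mul] at e7
  rw [← e7, mul_inv_cancel_right] at h3
  exact eq_one_of_odd ho h1 (mul_eq_one_iff_eq_inv.2 h3)

theorem op [Finite Q] [Nontrivial Q] : Op 2 G ≠ ⊥ := by
  obtain ⟨x, y, h1, h2⟩ : ∃ x y, x ≠ y ∧ b x y * b x y = 1 := by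
    obtain ⟨x, y, h⟩ := exists_pair_ne Q
    by_cases h2 : b x y * b x y = 1
    · exact ⟨x, y, h, h2⟩
    · obtain ⟨u, hu⟩ := not_forall.1 (mt Perm.ext h2)
      exact ⟨_, _, Ne.symm hu, T.clean x y u⟩
  intro h
  have h3 : b x y ∈ Op 2 G := bs1 (T.mem x y) fun g hg => by
    have h4 : g * b x y * g⁻¹ * (g * b x y * g⁻¹) = 1 := by
      rw [conj_mul, h2]; group
    by_contra hc
    obtain ⟨q, a, hq, ho, h5, h6⟩ := exists_odd_prime (g := b x y * (g * b x y * g⁻¹))
      fun k hk => hc (dih h2 h4 hk)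
    refine h5 (T.inverted (pow_mem (mul_mem (T.mem x y)
      (mul_mem (mul_mem hg (T.mem x y)) (inv_mem hg))) a) hq ho h6 h2 ?_)
    rw [← conj_pow, ← inv_pow, ← mul_assoc, h2, one_mul, mul_inv_rev (b x y),
      inv_eq_of_mul_eq_one_right h4]
  rw [h, mem_bot] at h3
  exact h1 (by rw [← T.l x y, h3]; rfl)

end Tern

variable [Mul Q] [One Q] [IsALoop Q]

theorem tern (hc : ∀ x y : Q, x * y = y * x) (h2 : ∀ x : Q, x * x = 1) :
    Tern (mlt Q) fun x y => lm x * lm ((lm x)⁻¹ y) * (lm x)⁻¹ := by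
  have cj : ∀ g ∈ mlt Q, ∀ x y, g * (lm x * lm ((lm x)⁻¹ y) * (lm x)⁻¹) * g⁻¹ =
      lm (g x) * lm ((lm (g x))⁻¹ (g y)) * (lm (g x))⁻¹ := fun g hg x y => by
    have h := dec (mul_mem hg (lm_mem x)) (lm_mem (g x)) (by simp [rone])
    have := cl h ((lm x)⁻¹ y)
    rw [Perm.mul_apply, Perm.mul_apply, ai] at this
    rw [← this]; group
  refine ⟨fun x y => ?_, fun x y z => ?_, fun x => ?_, fun x y => ?_, cj⟩
  · obtain ⟨y, rfl⟩ := (lm x).surjective y
    have := cj _ (lm_mem x) y 1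
    rw [show (lm y)⁻¹ 1 = y from Perm.inv_eq_iff_eq.2 (h2 y).symm, mul_inv_cancel_right,
      lm_app x 1, rone] at this
    rw [ia, this]
  · simp only [Perm.mul_apply, lm_app]
    rw [hc ((lm x)⁻¹ y)]
  · rw [lmi_self, lm_one, mul_one, mul_inv_cancel]
  · exact mul_mem (mul_mem (lm_mem _) (lm_mem _)) (inv_mem (lm_mem _))

end

end Pool.Agent.ALoop.S
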