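import Pool.Agent.P.MP_b7c14b_al.S.Odd
import Pool.Agent.P.MP_b7c14b_al.S.Aff
import Pool.Agent.P.MP_b7c14b_al.S.Exp2

/-! Every finite simple automorphic loop is a group. -/

namespace Pool.Agent.ALoop.S

open Subgroup Pool.Agent.P.MP_11c1cd_al Equiv

theorem op_top {P : Type*} [Group P] [Finite P] {p : ℕ} {Λ : Subgroup P} {x : Λ}
    (h : x ∈ Op p (⊤ : Subgroup Λ)) : x.1 ∈ Op p Λ := by
  refine le_Op (M := (Op p ⊤).map Λ.subtype) (map_subtype_le _) ?_ ((isPGroup_Op p _).map _)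
    ⟨x, h, rfl⟩
  rw [le_normalizer_iff]
  rintro y hy _ ⟨z, hz, rfl⟩
  exact ⟨_, conj_mem (le_normalizer_Op p _ (mem_top (⟨y, hy⟩ : Λ))) hz, rfl⟩

theorem pg_union {P : Type*} [Group P] [Finite P] {p : ℕ} {S T : Set P}
    (hS : IsPGroup p (closure S)) (hT : IsPGroup p (closure T))
    (h : ∀ g ∈ T, ∀ x ∈ S, g * x * g⁻¹ ∈ closure S) : IsPGroup p (closure (T ∪ S)) := by
  rw [Subgroup.closure_union]
  exact hT.to_sup_of_normal_right' hS ((closure_le _).2 fun g hg => mem_norm_closure (h g hg))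

theorem pg_insert {P : Type*} [Group P] [Finite P] {p : ℕ} {S : Set P} {g : P}
    (hS : IsPGroup p (closure S)) (hg : g ^ p = 1)
    (h : ∀ x ∈ S, g * x * g⁻¹ ∈ closure S) : IsPGroup p (closure (insert g S)) :=
  pg_union (T := {g}) hS (zpowers_eq_closure g ▸ pg_zpowers (k := 1) (by rwa [pow_one]))
    (by rintro _ rfl; exact h)

theorem pres {Q : Type} [Finite Q] {S : Set (Perm Q)} {N : Set Q} (h : ∀ g ∈ S, ∀ m ∈ N, g m ∈ N)
    {g : Perm Q} (hg : g ∈ closure S) {m : Q} (hm : m ∈ N) : g m ∈ N := by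
  induction hg using closure_induction generalizing m with
  | mem a ha => exact h a ha m hm
  | one => exact hm
  | mul a b _ _ i j => exact i (j hm)
  | inv a ha i =>
    have h2 := Finite.surjective_of_injective (f := fun z : N => (⟨a z, i z.2⟩ : N))
      fun z z' e => Subtype.ext (a.injective (congrArg Subtype.val e))
    obtain ⟨z, hz⟩ := h2 ⟨m, hm⟩
    rw [← show a z = m from congrArg Subtype.val hz, ia]
    exact z.2

noncomputable section

variable {Q : Type} [Mul Q] [One Q] [IsALoop Q] [Finite Q]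

/-- Left translations by the elements of order dividing `p` with the same commutant as `x`. -/
def ys (p : ℕ) (x : Q) : Set (Perm Q) := lm '' {y | pw y p = 1 ∧ nn y = nn x}

theorem nn_eq {φ : Perm Q} (h : φ ∈ inn Q) {x y : Q} (h1 : ∀ z ∈ nn x, φ z ∈ nn x)
    (hy : nn y = nn x) : nn (φ y) = nn x := by
  have e : φ '' nn x = nn x :=
    Set.eq_of_subset_of_ncard_le (by rintro _ ⟨z, hz, rfl⟩; exact h1 z hz)
      (Set.ncard_image_of_injective _ φ.injective).ge
  rw [← e, ← hy]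
  ext z
  refine ⟨fun hz => ⟨φ⁻¹ z, ?_, ai _ _⟩, by rintro ⟨z, hz, rfl⟩; exact nn_map h hz⟩
  simpa only [ia] using nn_map (inv_mem h) hz

theorem norm_ys {p : ℕ} {φ : Perm Q} (h : φ ∈ inn Q) {x : Q} (h1 : ∀ z ∈ nn x, φ z ∈ nn x) :
    φ ∈ normalizer (closure (ys p x) : Set (Perm Q)) := mem_norm_closure (by
  rintro _ ⟨y, hy, rfl⟩
  exact subset_closure ⟨_, ⟨Gen.c_map h hy.1, nn_eq h h1 hy.2⟩, (cl h y).symm⟩)

omit [Finite Q] in
theorem ys_le (p : ℕ) (x : Q) : closure (ys p x) ≤ mlt Q :=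
  (closure_le _).2 (by rintro _ ⟨y, -, rfl⟩; exact lm_mem y)

omit [Finite Q] in
theorem ys_act {p : ℕ} {x m : Q} {g : Perm Q} (hg : g ∈ closure (ys p x)) (hm : m ∈ nn x) :
    g m = g 1 * m := by
  have := commute_closure (T := {rm m}) (by
    rintro _ ⟨y, hy, rfl⟩ _ rfl
    exact (show m ∈ nn y from hy.2 ▸ hm)) hg (subset_closure rfl)
  simpa [lone] using congrArg (· 1) this.eq

theorem ys_mem {p : ℕ} {x m : Q} {g : Perm Q} (hg : g ∈ closure (ys p x)) (hm : m ∈ nn x) :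
    g m ∈ nn x :=
  pres (by rintro _ ⟨y, hy, rfl⟩ m hm; exact nn_mul (hy.2 ▸ flex y) hm) hg hm

omit [Finite Q] in
theorem ys_cen {p : ℕ} {x : Q} {g : closure (ys p x)} (h : g.1 1 = 1) : g ∈ center _ :=
  mem_center_iff.2 fun a => Subtype.ext (commute_closure (T := {g.1}) (by
    rintro _ ⟨y, hy, rfl⟩ _ rfl
    refine (coml (mk_inn (ys_le p x g.2) h) ?_).symm
    rw [ys_act g.2 (hy.2 ▸ flex y), h, lone]) a.2 (subset_closure rfl))

namespace Gen

variable (Ω : Gen Q) {p : ℕ} [Fact p.Prime] (ho : Odd p) {x w y : Q}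
include Ω ho

theorem ys_quad {h : Perm Q} (h1 : h ∈ inn Q) (h2 : Zs (Set.range tt) h) (h3 : h ^ p = 1)
    (h4 : ∀ z ∈ nn x, h z ∈ nn x) {l : Perm Q} (hl : l ∈ ys p x) :
    h * l * h⁻¹ * l⁻¹ ∈ Op p (closure (ys p x)) := by
  let α := (closure (ys p x)).normalizerMonoidHom ⟨h, norm_ys h1 h4⟩
  have e : ∀ g, (α g).1 = h * g * h⁻¹ := fun g => rfl
  have e1 : ∀ g, (α g).1 1 = h (g.1 1) := fun g => by
    rw [e, Perm.mul_apply, Perm.mul_apply, inn_one (inv_mem h1)]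
  have key : ∀ g, pw ((α g * g⁻¹).1 1) p = 1 ∧ h ((α g * g⁻¹).1 1) = (α g * g⁻¹).1 1 := fun g =>
    Ω.quad_pt ho h1 h2 h3 (y := g.1 1) (by
      rw [← ys_act (α g * g⁻¹).2 (ys_mem g.2 (nn_sub x).one_mem), ← e1, coe_mul, Perm.mul_apply,
        coe_inv, ia])
  refine op_top (x := α ⟨l, subset_closure hl⟩ * _) (quad α (fun g => ?_) (fun g => ?_) ?_)
  · have := ys_cen (g := (α g * g⁻¹)⁻¹ * α (α g * g⁻¹)) (by
      rw [coe_mul, Perm.mul_apply, e1, (key g).2, coe_inv, ia])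
    have h5 := (center _).normal_of_characteristic.conj_mem _ this (α g * g⁻¹)
    rwa [mul_inv_cancel_left] at h5
  · refine ys_cen ?_
    have : ∀ k : ℕ, ((α g * g⁻¹) ^ k).1 1 = pw ((α g * g⁻¹).1 1) k := by
      intro k
      induction k with
      | zero => rfl
      | succ k ih =>
        rw [pow_succ', coe_mul, Perm.mul_apply,
          ys_act (α g * g⁻¹).2 (ys_mem ((α g * g⁻¹) ^ k).2 (nn_sub x).one_mem), ih, Nat.cast_succ,
          pw_succ]
    rw [this, (key g).1]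
  · obtain ⟨y, hy, rfl⟩ := hl
    exact Subtype.ext (Ω.lm_p ho hy.1)

theorem ys_lem (hw : pw w p = 1) {e : Perm Q} (he : e ∈ closure (ys p x))
    (hc : (orderOf e).Coprime p) : (rm w)⁻¹ * e * rm w ∈ closure (ys p x) ∧
      e⁻¹ * ((rm w)⁻¹ * e * rm w) ∈ Op p (closure (ys p x)) := by
  have h4 : ∀ y, pw y p = 1 → nn y = nn x → ∀ z ∈ nn x, hm y w z ∈ nn x := fun y h1 h2 z hz => by
    have := nn_map (hm_mem y w) (h2 ▸ hz : z ∈ nn y)
    rwa [Ω.hm_l ho h1, h2] at this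
  refine lemX (Ω.rm_p ho hw) ?_ ?_ ?_ he hc
  · rintro _ ⟨y, hy, rfl⟩
    exact comr (hm_mem y w) (Ω.hm_r ho y hw)
  · rintro _ ⟨y, hy, rfl⟩
    exact norm_ys (hm_mem y w) (h4 y hy.1 hy.2)
  · rintro _ ⟨y, hy, rfl⟩ l hl
    exact Ω.ys_quad ho (hm_mem y w) (Ω.zs_hm ho hy.1 hw) (Ω.hm_p ho hy.1 w) (h4 y hy.1 hy.2) hl

theorem case1 (hx : pw x p = 1) (h1 : x ≠ 1) (hy : ¬ IsPGroup p (closure (ys p y))) (a b c : Q) :
    a * b * c = a * (b * c) := by
  have hp : p.Prime := Fact.out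
  set K := closure (rm '' {w : Q | pw w p = 1}) with hK
  have k1 : K ≤ mlt Q := (closure_le _).2 (by rintro _ ⟨y, -, rfl⟩; exact rm_mem y)
  have k2 : inn Q ≤ normalizer (K : Set (Perm Q)) := fun φ h => mem_norm_closure (by
    rintro _ ⟨w, hw, rfl⟩
    exact subset_closure ⟨_, c_map h hw, (cr h w).symm⟩)
  have k3 := (trans_or Ω.simple k1 k2).resolve_left fun h =>
    h1 ((lone x).symm.trans (h _ (subset_closure ⟨x, hx, rfl⟩)))
  have k4 := norm_of_trans k1 k2 k3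
  set E := closure {e ∈ closure (ys p y) | (orderOf e).Coprime p} with hE
  have e1 : E ≤ closure (ys p y) := (closure_le _).2 fun e he => he.1
  have e0 : ∀ (w : Q) e, (orderOf e).Coprime p → (orderOf ((rm w)⁻¹ * e * rm w)).Coprime p :=
    fun w e h => by
      rwa [SemiconjBy.orderOf_eq (rm w) (x := (rm w)⁻¹ * e * rm w) (y := e) (by
        show rm w * ((rm w)⁻¹ * e * rm w) = e * rm w
        group)]
  have e2 : K ≤ normalizer (E : Set (Perm Q)) := by
    rw [hK, closure_le]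
    rintro _ ⟨w, hw, rfl⟩
    refine (inv_mem_iff.1 (mem_norm_closure fun e he => subset_closure ?_))
    rw [inv_inv]
    exact ⟨(Ω.ys_lem ho hw he.1 he.2).1, e0 w e he.2⟩
  have e3 : Op p E ⊓ K ≤ ⊥ := by
    rw [← Ω.op p hp]
    exact (inf_le_Op (isPGroup_Op p E) (e2.trans (normalizer_le_normalizer_Op p E))).trans
      (le_Op ((Op_le _ _).trans k1) (k4.trans (normalizer_le_normalizer_Op p K)) (isPGroup_Op p K))
  have e4 : mlt Q ⊓ centralizer (K : Set (Perm Q)) ≠ ⊥ := fun h => hy fun g => by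
    obtain ⟨k, m, hm, e⟩ := Nat.exists_eq_pow_mul_and_not_dvd (orderOf_pos g.1).ne' p hp.ne_one
    have he := (g ^ p ^ k).2
    have hc : (orderOf (g ^ p ^ k).1).Coprime p :=
      (((Nat.Prime.coprime_iff_not_dvd hp).2 hm).coprime_dvd_right (orderOf_dvd_of_pow_eq_one
        (by rw [coe_pow, ← pow_mul, ← e, pow_orderOf_eq_one]))).symm
    refine ⟨k, Subtype.ext (mem_bot.1 (h ▸ ⟨ys_le p y he, fun f hf => ?_⟩))⟩
    generalize (g ^ p ^ k).1 = e at *
    refine commute_closure (T := {e}) ?_ hf (subset_closure rfl)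
    rintro _ ⟨w, hw, rfl⟩ _ rfl
    obtain ⟨l1, l2⟩ := Ω.ys_lem ho hw he hc
    have l3 := e3 ⟨inf_le_Op (isPGroup_Op p _) (e1.trans (le_normalizer_Op p _)) ⟨l2,
      E.mul_mem (E.inv_mem (subset_closure ⟨he, hc⟩)) (subset_closure ⟨l1, e0 _ _ hc⟩)⟩, by
        have l4 : rm w ∈ K := subset_closure ⟨w, hw, rfl⟩
        have := K.mul_mem (conj_mem' (k4 (ys_le p y he)) (K.inv_mem l4)) l4
        rwa [mul_assoc, mul_assoc, ← mul_assoc (rm w)⁻¹] at this⟩
    rw [mem_bot, inv_mul_eq_one, mul_assoc, eq_inv_mul_iff_mul_eq] at l3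
    exact l3
  have e5 := trans_of_ne Ω.simple inf_le_left (fun g hg => mem_normalizer_fintype fun z hz =>
    ⟨(mlt Q).mul_mem ((mlt Q).mul_mem hg hz.1) ((mlt Q).inv_mem hg), fun u hu => by
      have := hz.2 _ (conj_mem' (k4 hg) hu)
      calc u * (g * z * g⁻¹) = g * (g⁻¹ * u * g * z) * g⁻¹ := by group
        _ = _ := by rw [this]; group⟩) e4
  have e6 : ∀ w, pw w p = 1 → w ∈ nn x := fun w hw => by
    have l4 : rm w ∈ K := subset_closure ⟨w, hw, rfl⟩
    have l5 : hm x w ∈ K := K.mul_mem (conj_mem' (k4 (lm_mem x)) (K.inv_mem l4)) l4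
    have : hm x w = 1 := Perm.ext fun z => by
      obtain ⟨u, hu, rfl⟩ := e5 z
      exact fix_of_com (hm_mem x w).2 (hu.2 _ l5)
    have l6 := Ω.hm_cj ho hx w
    rwa [this, mul_one, mul_inv_eq_iff_eq_mul] at l6
  have e7 : ∀ z, z ∈ nn x := fun z => by
    obtain ⟨k, hk, rfl⟩ := k3 z
    exact pres (by rintro _ ⟨w, hw, rfl⟩ m hm; exact nn_mul hm (e6 w hw)) hk (nn_sub x).one_mem
  have e8 := (Ω.simple.2 {u | ∀ z, z ∈ nn u} ⟨sub_of_mul (fun z => (nn_sub' z).one_mem)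
    fun a ha b hb z => nn_mul' (ha z) (hb z), fun φ hφ h u hu z => by
      simpa only [ai] using nn_map (φ := φ) ⟨hφ, h⟩ (hu (φ⁻¹ z))⟩).resolve_left
    fun h => h1 (h.le e7)
  exact (congrArg (· b) (e8.ge (Set.mem_univ a) c).eq).symm

theorem pg_set (hy : ∀ y : Q, IsPGroup p (closure (ys p y))) {X : Set Q} (h1 : ∀ x ∈ X, pw x p = 1)
    (h2 : ∀ x ∈ X, ∀ c ∈ X, c ∈ nn x) : IsPGroup p (closure (lm '' X)) := by
  refine pg_closure_of_Op ?_
  rintro _ ⟨x, hx, rfl⟩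
  refine inf_le_Op (hy x) ((closure_le _).2 ?_)
    ⟨subset_closure ⟨x, ⟨h1 x hx, rfl⟩, rfl⟩, subset_closure ⟨x, hx, rfl⟩⟩
  rintro _ ⟨c, hc, rfl⟩
  have e : lm c = rm c * tm c := by simp [tm]
  rw [e]
  refine mul_mem (mem_norm_closure ?_) (norm_ys (tm_mem c) fun z hz => ?_)
  · rintro _ ⟨y, hy, rfl⟩
    rw [← Commute.eq (hy.2 ▸ h2 x hx c hc : c ∈ nn y), mul_inv_cancel_right]
    exact subset_closure ⟨y, hy, rfl⟩
  · exact (nn_sub x).rdiv_mem _ (h2 x hx c hc) _ (nn_mul (h2 x hx c hc) hz) _ (rmi' _ _)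

theorem tm_nn (hx : pw x p = 1) (hw : pw w p = 1) (k : ℤ) : (tm w ^ k) x ∈ nn x := by
  have c0 : Commute (rm w) (tm w) := (Commute.refl _).inv_right.mul_right (flex w).symm
  have c1 := comr (hm_mem x w) (Ω.hm_r ho x hw)
  have c2 := comr (hm_mem x w) (Ω.hm_l ho hx w)
  have c3 := coml (hm_mem w x) (Ω.hm_l ho hw x)
  have c4 := comr (hm_mem w x) (Ω.hm_l ho hw x)
  have c5 := coml (hm_mem w x) (Ω.hm_r ho w hx)
  have e1 : ∀ k : ℤ, Commute (lm x) (rm w ^ k * rm x * (rm w ^ k)⁻¹) := fun k => by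
    rw [Commute, SemiconjBy, ← mul_inv_eq_iff_eq_mul]
    calc _ = (lm x * rm w * (lm x)⁻¹) ^ k * (lm x * rm x * (lm x)⁻¹) *
          ((lm x * rm w * (lm x)⁻¹) ^ k)⁻¹ := by rw [conj_zpow]; group
      _ = rm w ^ k * (hm x w ^ k * rm x) * (hm x w ^ k)⁻¹ * (rm w ^ k)⁻¹ := by
        rw [Ω.hm_cj ho hx, (flex x).eq, c1.symm.mul_zpow]; group
      _ = _ := by rw [(c2.zpow_left k).eq]; group
  have e2 : ∀ k : ℤ, lm w ^ k * rm x * (lm w ^ k)⁻¹ = rm x * hm w x ^ k := by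
    have e : ∀ k : ℤ, lm w * (rm x * hm w x ^ k) * (lm w)⁻¹ = rm x * hm w x ^ (k + 1) := fun k => by
      calc _ = lm w * rm x * (hm w x ^ k * (lm w)⁻¹) := by group
        _ = _ := by rw [(c3.zpow_left k).inv_right.eq, ← mul_assoc, Ω.hm_cj ho hw]; group
    intro k
    induction k using Int.induction_on with
    | zero => simp
    | succ k ih => rw [← e, ← ih]; group
    | pred k ih =>
      have := e (-(k : ℤ) - 1)
      rw [sub_add_cancel, ← ih] at this
      calc _ = (lm w)⁻¹ * (lm w ^ (-(k : ℤ)) * rm x * (lm w ^ (-(k : ℤ)))⁻¹) * lm w := by group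
        _ = _ := by rw [← this]; group
  refine cm ((e1 (-k)).mul_right (c5.symm.zpow_right k)) rfl ?_
  rw [← cr (zpow_mem (tm_mem w) k), tm, (flex w).symm.inv_left.mul_zpow]
  calc _ = rm w ^ (-k) * (lm w ^ k * rm x * (lm w ^ k)⁻¹) * rm w ^ k := by group
    _ = rm w ^ (-k) * rm x * (hm w x ^ k * rm w ^ k) := by rw [e2]; group
    _ = _ := by rw [(c4.zpow_zpow k k).eq]; group

theorem pg_ll (hy : ∀ y : Q, IsPGroup p (closure (ys p y))) (hx : pw x p = 1) (hw : pw w p = 1) :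
    IsPGroup p (closure {lm x, lm w}) := by
  have t : ∀ k : ℤ, tm w ^ k ∈ inn Q := zpow_mem (tm_mem w)
  have h1 := Ω.pg_set ho hy (X := Set.range fun k : ℤ => (tm w ^ k) x)
    (by rintro _ ⟨k, rfl⟩; exact c_map (t k) hx) (by
      rintro _ ⟨k, rfl⟩ _ ⟨j, rfl⟩
      have := nn_map (t k) (Ω.tm_nn ho hx hw (j - k))
      rwa [← Perm.mul_apply, ← zpow_add, add_sub_cancel] at this)
  have c1 := comr (hm_mem x w) (Ω.hm_r ho x hw)
  have c2 := coml (hm_mem x w) (Ω.hm_r ho x hw)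
  have c3 : Commute (hm x w) (tm w) := c1.inv_right.mul_right c2
  have c4 : ∀ k : ℤ, Commute (hm x w) (lm ((tm w ^ k) x)) := fun k => coml (hm_mem x w) (by
    rw [← Perm.mul_apply, (c3.zpow_right k).eq, Perm.mul_apply, Ω.hm_l ho hx])
  have h2 := pg_insert h1 (Ω.hm_p ho hx w) (by
    rintro _ ⟨_, ⟨k, rfl⟩, rfl⟩
    rw [(c4 k).eq, mul_inv_cancel_right]
    exact subset_closure ⟨_, ⟨k, rfl⟩, rfl⟩)
  have h3 := pg_insert h2 (g := (lm w)⁻¹) (by rw [inv_pow, Ω.lm_p ho hw, inv_one]) (by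
    rintro _ (rfl | ⟨_, ⟨k, rfl⟩, rfl⟩)
    · rw [← c2.inv_right.eq, mul_inv_cancel_right]
      exact subset_closure (Or.inl rfl)
    · have c0 : Commute (rm w) (tm w) := (Commute.refl _).inv_right.mul_right (flex w).symm
      have e : lm w = rm w * tm w := by simp [tm]
      have e1 : (rm w)⁻¹ * lm x * rm w = lm x * hm x w := by rw [hm]; group
      have e2 : (lm w)⁻¹ * lm ((tm w ^ k) x) * (lm w)⁻¹⁻¹ = lm ((tm w ^ (k - 1)) x) * hm x w := by
        rw [← cl (t k), ← cl (t (k - 1)), e]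
        calc _ = (tm w)⁻¹ * ((rm w)⁻¹ * tm w ^ k) * lm x * ((tm w ^ k)⁻¹ * rm w) * tm w := by group
          _ = tm w ^ (k - 1) * ((rm w)⁻¹ * lm x * rm w) * (tm w ^ (k - 1))⁻¹ := by
            rw [(c0.inv_left.zpow_right k).eq, ← (c0.zpow_right k).inv_right.eq]; group
          _ = tm w ^ (k - 1) * lm x * (hm x w * (tm w ^ (k - 1))⁻¹) := by rw [e1]; group
          _ = _ := by rw [(c3.zpow_right (k - 1)).inv_right.eq]; group
      rw [e2]
      exact mul_mem (subset_closure (Or.inr ⟨_, ⟨k - 1, rfl⟩, rfl⟩)) (subset_closure (Or.inl rfl)))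
  refine h3.to_le ((closure_le _).2 ?_)
  rintro _ (rfl | rfl)
  · exact subset_closure (Or.inr (Or.inr ⟨_, ⟨0, rfl⟩, rfl⟩))
  · exact inv_mem_iff.1 (subset_closure (Or.inl rfl))

theorem case2 (hy : ∀ y : Q, IsPGroup p (closure (ys p y))) (hx : pw x p = 1) : x = 1 := by
  by_contra h1
  have hd : p ∣ Nat.card Q := by
    by_contra hd
    obtain ⟨u, hu⟩ := (pg_zpowers (k := 1)
      (by rw [pow_one, Ω.lm_p ho hx])).nonempty_fixed_point_of_prime_not_dvd_card Q hd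
    exact h1 (rcan ((hu ⟨_, mem_zpowers _⟩).trans (lone u).symm))
  have key : ∀ x : Q, pw x p = 1 → lm x = rm x := fun x hx => by
    have : tm x ∈ Op p (inn Q) := bs1 (tm_mem x) fun η hη => by
      have hw := c_map hη hx
      have e : η * tm x * η⁻¹ = tm (η x) := by rw [tm, tm, ← cl hη, ← cr hη]; group
      rw [e]
      generalize η x = w at *
      have a1 := Ω.hm_l ho hx w
      have a2 := Ω.hm_r ho x hw
      have a3 := Ω.hm_l ho hw x
      have a4 := Ω.hm_r ho w hx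
      have h2 := pg_insert (Ω.pg_ll ho hy hx hw) (Ω.hm_p ho hx w) (by
        rintro _ (rfl | rfl)
        · rw [cl (hm_mem _ _), a1]; exact subset_closure (by simp)
        · rw [cl (hm_mem _ _), a2]; exact subset_closure (by simp))
      have c : Commute (hm w x) (hm x w) :=
        (((coml (hm_mem _ _) a4).inv_right.mul_right (comr (hm_mem _ _) a3).inv_right).mul_right
          (coml (hm_mem _ _) a4)).mul_right (comr (hm_mem _ _) a3)
      have h3 := pg_insert h2 (Ω.hm_p ho hw x) (by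
        rintro _ (rfl | rfl | rfl)
        · rw [c.eq, mul_inv_cancel_right]; exact subset_closure (by simp)
        · rw [cl (hm_mem _ _), a4]; exact subset_closure (by simp)
        · rw [cl (hm_mem _ _), a3]; exact subset_closure (by simp))
      have h4 : IsPGroup p (closure {(rm x)⁻¹, (rm w)⁻¹}) := by
        refine ((Ω.pg_ll ho hy (c_iv hx) (c_iv hw)).map
          (MulAut.conj (iv Q)).toMonoidHom).to_le ((closure_le _).2 ?_)
        rintro _ (rfl | rfl)
        · exact inv_mem ⟨_, subset_closure (Or.inl rfl), (aaip _).trans (by rw [iv_iv])⟩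
        · exact inv_mem ⟨_, subset_closure (Or.inr rfl), (aaip _).trans (by rw [iv_iv])⟩
      have e1 : ∀ x w : Q, (rm w)⁻¹ * lm x * (rm w)⁻¹⁻¹ = lm x * hm x w := fun x w => by
        rw [hm]; group
      have e2 : ∀ a b : Perm Q, Commute a b → b⁻¹ * a * b⁻¹⁻¹ = a := fun a b h => by
        rw [inv_inv, mul_assoc, h.eq, inv_mul_cancel_left]
      have h5 := pg_union h3 h4 (by
        rintro _ (rfl | rfl) _ (rfl | rfl | rfl | rfl)
        · rw [e2 _ _ (comr (hm_mem _ _) a4)]; exact subset_closure (by simp)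
        · rw [e2 _ _ (comr (hm_mem _ _) a1)]; exact subset_closure (by simp)
        · rw [e2 _ _ (flex _)]; exact subset_closure (by simp)
        · rw [e1]; exact mul_mem (subset_closure (by simp)) (subset_closure (by simp))
        · rw [e2 _ _ (comr (hm_mem _ _) a3)]; exact subset_closure (by simp)
        · rw [e2 _ _ (comr (hm_mem _ _) a2)]; exact subset_closure (by simp)
        · rw [e1]; exact mul_mem (subset_closure (by simp)) (subset_closure (by simp))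
        · rw [e2 _ _ (flex _)]; exact subset_closure (by simp))
      exact ⟨_, h5, mul_mem (subset_closure (by simp)) (subset_closure (by simp)),
        mul_mem (subset_closure (by simp)) (subset_closure (by simp))⟩
    rw [op_inn Ω.simple hd, mem_bot, tm, inv_mul_eq_one] at this
    exact this.symm
  have e : tt x * tt 1 = lm x ^ (2 : ℤ) := by
    have e1 : iv Q * lm x * (iv Q)⁻¹ = (lm x)⁻¹ := by
      rw [aaip, ← key _ (c_iv hx), ← zpow_neg_one, ← Ω.lm_pw ho hx]; rfl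
    calc _ = lm x * (iv Q * lm x * (iv Q)⁻¹)⁻¹ := by
          rw [tt_one, tt, mul_inv_rev, mul_inv_rev, iv_inv, iv_inv]; group
      _ = _ := by rw [e1, inv_inv, zpow_two]
  by_cases h2 : tt x * tt 1 = 1
  · rw [mul_eq_one_iff_eq_inv, refl_tt.inv ⟨_, rfl⟩] at h2
    exact h1 (Ω.inj h2)
  · obtain ⟨q, k, hq, h3, h4⟩ := rot_mem_Op refl_tt ⟨x, rfl⟩ ⟨1, rfl⟩
      (e ▸ (Ω.zs_lm ho hx).zpow 2) h2
    exact h3 (mem_bot.1 (Ω.op' q hq ▸ ⟨h4, pow_mem (tt_mul _ _) k⟩))

end Gen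

theorem simple_assoc (hS : IsSimple Q) (a b c : Q) : a * b * c = a * (b * c) := by
  by_cases h : ∀ p : ℕ, p.Prime → Op p (mlt Q) = ⊥
  · obtain h1 | h1 := dichotomy hS
    · have Ω : Gen Q := ⟨hS, h1, h⟩
      obtain ⟨p, x, hp, ho, h2, h3⟩ := Ω.exists_odd
      have : Fact p.Prime := ⟨hp⟩
      obtain ⟨y, hy⟩ := not_forall.1 fun hy => h2 (Ω.case2 ho hy h3)
      exact Ω.case1 ho h3 h2 hy a b c
    · have := hS.1
      exact absurd (h 2 Nat.prime_two) (tern h1.1 h1.2).op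
  · push Not at h
    obtain ⟨p, hp, h⟩ := h
    have : Fact p.Prime := ⟨hp⟩
    exact affine hS h a b c

end

end Pool.Agent.ALoop.S
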