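import Pool.Agent.P.MP_11c1cd_al.Baer

/-! Group theoretic lemmas for the classification of finite simple automorphic loops. -/

namespace Pool.Agent.ALoop.S

open Subgroup Pool.Agent.P.MP_11c1cd_al

variable {P : Type*} [Group P]

theorem abc {A B C : P} (h : ∀ i : ℤ, (A * B * C) ^ i = A ^ i * B ^ i * C ^ i) (i j : ℤ) :
    Commute (A ^ j * B ^ j) (B ^ i * C ^ i) := by
  have h1 := h (i + j)
  rw [zpow_add, h i, h j] at h1
  show A ^ j * B ^ j * (B ^ i * C ^ i) = B ^ i * C ^ i * (A ^ j * B ^ j)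
  calc A ^ j * B ^ j * (B ^ i * C ^ i)
      = A ^ (-i) * (A ^ (i + j) * B ^ (i + j) * C ^ (i + j)) * C ^ (-j) := by group
    _ = _ := by rw [← h1]; group

theorem pg_zpowers {p k : ℕ} {g : P} (h : g ^ p ^ k = 1) : IsPGroup p (zpowers g) := by
  rintro ⟨_, j, rfl⟩
  refine ⟨k, Subtype.ext ?_⟩
  show (g ^ j) ^ p ^ k = 1
  rw [← zpow_natCast, ← zpow_mul, mul_comm, zpow_mul, zpow_natCast, h, one_zpow]

theorem pg_pow {p : ℕ} {T : Subgroup P} (h : IsPGroup p T) {g : P} (hg : g ∈ T) :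
    ∃ k, g ^ p ^ k = 1 := by
  obtain ⟨k, hk⟩ := h ⟨g, hg⟩
  exact ⟨k, congrArg Subtype.val hk⟩

theorem mem_norm_closure [Finite P] {S : Set P} {g : P}
    (h : ∀ x ∈ S, g * x * g⁻¹ ∈ closure S) : g ∈ normalizer (closure S : Set P) := by
  apply mem_normalizer_fintype
  intro n hn
  have : closure S ≤ (closure S).comap (MulAut.conj g).toMonoidHom := by
    rw [closure_le]; exact h
  exact this hn

theorem conj_mem {T : Subgroup P} {g x : P} (hg : g ∈ normalizer (T : Set P)) (hx : x ∈ T) :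
    g * x * g⁻¹ ∈ T := (mem_normalizer_iff.1 hg x).1 hx

theorem conj_mem' {T : Subgroup P} {g x : P} (hg : g ∈ normalizer (T : Set P)) (hx : x ∈ T) :
    g⁻¹ * x * g ∈ T := (mem_normalizer_iff''.1 hg x).1 hx

theorem inf_le_Op [Finite P] {p : ℕ} {A T : Subgroup P} (hA : IsPGroup p A)
    (hn : T ≤ normalizer (A : Set P)) : A ⊓ T ≤ Op p T := by
  refine le_Op inf_le_right (fun g hg => mem_normalizer_fintype fun x hx => ?_)
    (hA.to_le inf_le_left)
  exact ⟨conj_mem (hn hg) hx.1, T.mul_mem (T.mul_mem hg hx.2) (T.inv_mem hg)⟩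

theorem pg_closure_of_Op [Finite P] {p : ℕ} {S : Set P} (h : ∀ x ∈ S, x ∈ Op p (closure S)) :
    IsPGroup p (closure S) := (isPGroup_Op p _).to_le ((closure_le _).2 h)

theorem mem_Op_of_central [Finite P] {p : ℕ} [Fact p.Prime] {T : Subgroup P}
    (h : ∀ g ∈ T, ∃ k, ∀ g' ∈ T, Commute (g ^ p ^ k) g') {g : P} (hg : g ∈ T) {k : ℕ}
    (hk : g ^ p ^ k = 1) : g ∈ Op p T := by
  have h1 : IsPGroup p (T ⧸ center T) := by
    intro x
    obtain ⟨x, rfl⟩ := QuotientGroup.mk_surjective x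
    obtain ⟨j, hj⟩ := h x x.2
    refine ⟨j, ?_⟩
    rw [← QuotientGroup.mk_pow, QuotientGroup.eq_one_iff, mem_center_iff]
    exact fun y => Subtype.ext (hj y y.2).symm
  have h2 : Group.IsNilpotent T := Group.of_quotient_center_nilpotent h1.isNilpotent
  obtain ⟨S, hS⟩ := (pg_zpowers (g := (⟨g, hg⟩ : T)) (p := p) (k := k)
    (Subtype.ext hk)).exists_le_sylow
  have h3 : (S : Subgroup T).Normal := by
    have := (Group.isNilpotent_of_finite_tfae (G := T)).out 0 3
    exact this.1 h2 p inferInstance S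
  refine le_Op (M := (S : Subgroup T).map T.subtype) (map_subtype_le _) ?_ (S.isPGroup'.map _)
    ⟨_, hS (mem_zpowers _), rfl⟩
  rw [le_normalizer_iff]
  rintro y hy _ ⟨z, hz, rfl⟩
  exact ⟨_, h3.conj_mem z hz ⟨y, hy⟩, rfl⟩

theorem dih [Finite P] {t u : P} (ht : t * t = 1) (hu : u * u = 1) {k : ℕ}
    (h : (t * u) ^ 2 ^ k = 1) : ∃ R : Subgroup P, IsPGroup 2 R ∧ t ∈ R ∧ u ∈ R := by
  have e : t * (t * u) * t⁻¹ = (t * u)⁻¹ := by
    rw [← mul_assoc, ht, one_mul, mul_inv_rev, inv_eq_of_mul_eq_one_right hu]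
  refine ⟨zpowers t ⊔ zpowers (t * u), ?_, mem_sup_left (mem_zpowers _), ?_⟩
  · refine (pg_zpowers (k := 1) (by rw [pow_one, pow_two, ht])).to_sup_of_normal_right'
      (pg_zpowers h) ?_
    rw [zpowers_le, zpowers_eq_closure]
    refine mem_norm_closure ?_
    rintro _ rfl
    rw [e]
    exact inv_mem (subset_closure rfl)
  · have : u = t * (t * u) := by rw [← mul_assoc, ht, one_mul]
    rw [this]
    refine mul_mem (mem_sup_left (mem_zpowers _)) (mem_sup_right ?_)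
    rw [← this]
    exact mem_zpowers _

theorem exists_odd_prime [Finite P] {g : P} (h : ∀ k, g ^ 2 ^ k ≠ 1) :
    ∃ q a : ℕ, q.Prime ∧ Odd q ∧ g ^ a ≠ 1 ∧ (g ^ a) ^ q = 1 := by
  have h0 : orderOf g ≠ 0 := (orderOf_pos g).ne'
  obtain ⟨k, m, hm, e⟩ := Nat.exists_eq_two_pow_mul_odd h0
  have h1 : m ≠ 1 := by
    rintro rfl
    exact h k (by rw [← mul_one (2 ^ k), ← e, pow_orderOf_eq_one])
  obtain ⟨q, hq, c, rfl⟩ := Nat.exists_prime_and_dvd h1
  have h2 : orderOf g = 2 ^ k * c * q := by rw [e]; ring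
  refine ⟨q, 2 ^ k * c, hq, (Nat.odd_mul.1 hm).1, ?_, by rw [← pow_mul, ← h2, pow_orderOf_eq_one]⟩
  have h3 : 2 ^ k * c ≠ 0 := by
    intro h3
    rw [h3, zero_mul] at h2
    exact h0 h2
  refine pow_ne_one_of_lt_orderOf h3 ?_
  rw [h2]
  exact (Nat.lt_mul_iff_one_lt_right (Nat.pos_of_ne_zero h3)).2 hq.one_lt

theorem eq_one_of_odd {n : P} {q : ℕ} (hq : Odd q) (h1 : n ^ q = 1) (h2 : n * n = 1) : n = 1 := by
  obtain ⟨k, rfl⟩ := hq
  rwa [pow_succ, pow_mul, pow_two, h2, one_pow, one_mul] at h1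

theorem pg_normalClosure {p : ℕ} {m : P} (hm : m ^ p = 1)
    (hc : ∀ g, Commute m (g * m * g⁻¹)) : IsPGroup p (normalClosure {m}) := by
  have h1 : ∀ a ∈ Group.conjugatesOfSet {m}, ∃ g, a = g * m * g⁻¹ := by
    intro a ha
    obtain ⟨y, rfl, hy⟩ := Group.mem_conjugatesOfSet_iff.1 ha
    obtain ⟨g, rfl⟩ := isConj_iff.1 hy
    exact ⟨g, rfl⟩
  have h2 : ∀ a ∈ Group.conjugatesOfSet {m}, ∀ b ∈ Group.conjugatesOfSet {m}, Commute a b := by
    intro a ha b hb
    obtain ⟨g, rfl⟩ := h1 a ha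
    obtain ⟨g', rfl⟩ := h1 b hb
    have := (hc (g⁻¹ * g')).map (MulAut.conj g)
    simp only [MulAut.conj_apply] at this
    convert this using 1
    group
  have h3 : ∀ a ∈ normalClosure ({m} : Set P), ∀ b ∈ normalClosure ({m} : Set P),
      Commute a b := by
    intro a ha b hb
    exact closure_induction₂ (p := fun a b _ _ => Commute a b) (fun a b ha hb => h2 a ha b hb)
      (fun _ _ => Commute.one_left _) (fun _ _ => Commute.one_right _)
      (fun _ _ _ _ _ _ => Commute.mul_left) (fun _ _ _ _ _ _ => Commute.mul_right)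
      (fun _ _ _ _ => Commute.inv_left) (fun _ _ _ _ => Commute.inv_right) ha hb
  rintro ⟨a, ha⟩
  refine ⟨1, Subtype.ext ?_⟩
  show a ^ p ^ 1 = 1
  rw [pow_one]
  induction ha using closure_induction with
  | mem a ha =>
    obtain ⟨g, rfl⟩ := h1 a ha
    rw [conj_pow, hm, mul_one, mul_inv_cancel]
  | one => exact one_pow _
  | mul a b ha hb iha ihb => rw [(h3 a ha b hb).mul_pow, iha, ihb, one_mul]
  | inv a _ ih => rw [inv_pow, ih, inv_one]

theorem pow_mem_of_quot {p : ℕ} {Z : Subgroup P} {n m : P}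
    (hZ : closure {n, m} ≤ normalizer (Z : Set P)) (hn : n ^ p = 1) (hm : m ^ p = 1)
    (hc : ∀ g ∈ closure {n, m}, m * (g * m * g⁻¹) * m⁻¹ * (g * m * g⁻¹)⁻¹ ∈ Z) :
    ∀ g ∈ closure {n, m}, ∃ k, g ^ p ^ k ∈ Z := by
  set Γ := closure ({n, m} : Set P) with hΓ
  have : (Z.subgroupOf Γ).Normal := normal_subgroupOf_of_le_normalizer hZ
  let π := QuotientGroup.mk' (Z.subgroupOf Γ)
  let n' : Γ := ⟨n, subset_closure (by simp)⟩
  let m' : Γ := ⟨m, subset_closure (by simp)⟩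
  have h1 : IsPGroup p (normalClosure {π m'}) := by
    refine pg_normalClosure ?_ fun g => ?_
    · rw [← map_pow, show m' ^ p = 1 from Subtype.ext hm, map_one]
    · obtain ⟨g, rfl⟩ := QuotientGroup.mk'_surjective _ g
      rw [← commutatorElement_eq_one_iff_commute, commutatorElement_def]
      have : π (m' * (g * m' * g⁻¹) * m'⁻¹ * (g * m' * g⁻¹)⁻¹) = 1 :=
        (QuotientGroup.eq_one_iff _).2 (hc g g.2)
      simpa only [map_mul, map_inv] using this
  have h2 : IsPGroup p (zpowers (π n') ⊔ normalClosure {π m'} : Subgroup _) :=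
    (pg_zpowers (k := 1) (by
      rw [pow_one, ← map_pow, show n' ^ p = 1 from Subtype.ext hn, map_one])).to_sup_of_normal_right h1
  have h3 : ∀ g (hg : g ∈ Γ), π ⟨g, hg⟩ ∈ zpowers (π n') ⊔ normalClosure {π m'} := by
    intro g hg
    induction hg using closure_induction with
    | mem a ha =>
      obtain rfl | rfl := ha
      · exact mem_sup_left (mem_zpowers _)
      · exact mem_sup_right (subset_normalClosure rfl)
    | one => exact one_mem _
    | mul a b ha hb iha ihb => exact mul_mem iha ihb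
    | inv a _ ih => exact inv_mem ih
  intro g hg
  obtain ⟨k, hk⟩ := pg_pow h2 (h3 g hg)
  rw [← map_pow] at hk
  have h4 := (QuotientGroup.eq_one_iff (N := Z.subgroupOf Γ) _).1 hk
  exact ⟨k, h4⟩

end Pool.Agent.ALoop.S
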