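import Pool.Agent.P.MP_b7c14b_al.S.Quad
import Pool.Agent.P.MP_b7c14b_al.Basic

/-! Basic facts on finite automorphic loops: powers, inversion, point reflections. -/

namespace Pool.Agent.ALoop.S

open Subgroup Pool.Agent.P.MP_11c1cd_al Equiv

noncomputable section

variable {Q : Type} [Mul Q] [One Q] [IsALoop Q]

/-- Left translation as a permutation. -/
def lm (a : Q) : Perm Q := (L a).1

/-- Right translation as a permutation. -/
def rm (a : Q) : Perm Q := (R a).1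

@[simp] theorem lm_app (a x : Q) : lm a x = a * x := rfl

@[simp] theorem rm_app (a x : Q) : rm a x = x * a := rfl

theorem lm_mem (a : Q) : lm a ∈ mlt Q := (L a).2

theorem rm_mem (a : Q) : rm a ∈ mlt Q := (R a).2

theorem lm_one : lm (1 : Q) = 1 := Perm.ext lone

theorem rm_one : rm (1 : Q) = 1 := Perm.ext rone

theorem ia {α : Type*} (g : Perm α) (x : α) : g⁻¹ (g x) = x := g.symm_apply_apply x

theorem ai {α : Type*} (g : Perm α) (x : α) : g (g⁻¹ x) = x := g.apply_symm_apply x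

theorem lmi (a x : Q) : (lm a)⁻¹ (a * x) = x := (lm a).symm_apply_apply x

theorem rmi (a x : Q) : (rm a)⁻¹ (x * a) = x := (rm a).symm_apply_apply x

theorem lmi' (a x : Q) : a * (lm a)⁻¹ x = x := (lm a).apply_symm_apply x

theorem rmi' (a x : Q) : (rm a)⁻¹ x * a = x := (rm a).apply_symm_apply x

theorem lmi_self (a : Q) : (lm a)⁻¹ a = 1 := by rw [Perm.inv_eq_iff_eq, lm_app, rone]

theorem rmi_self (a : Q) : (rm a)⁻¹ a = 1 := by rw [Perm.inv_eq_iff_eq, rm_app, lone]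

theorem mlt_le {K : Subgroup (Perm Q)} (h1 : ∀ a, lm a ∈ K) (h2 : ∀ a, rm a ∈ K) : mlt Q ≤ K := by
  rw [mlt, closure_le]
  rintro σ ⟨a, h | h⟩
  · exact (show lm a = σ from Perm.ext fun x => (h x).symm) ▸ h1 a
  · exact (show rm a = σ from Perm.ext fun x => (h x).symm) ▸ h2 a

variable (Q) in
/-- The inner mapping group. -/
def inn : Subgroup (Perm Q) := mlt Q ⊓ MulAction.stabilizer (Perm Q) (1 : Q)

variable {φ g : Perm Q} {x y z : Q}

theorem mk_inn (h : g ∈ mlt Q) (h1 : g 1 = 1) : g ∈ inn Q := ⟨h, h1⟩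

theorem inn_one (h : φ ∈ inn Q) : φ 1 = 1 := h.2

theorem au (h : φ ∈ inn Q) (x y : Q) : φ (x * y) = φ x * φ y := IsALoop.aut φ h.1 h.2 x y

theorem cl (h : φ ∈ inn Q) (x : Q) : φ * lm x * φ⁻¹ = lm (φ x) :=
  Perm.ext fun y => by simp [au h]

theorem cr (h : φ ∈ inn Q) (x : Q) : φ * rm x * φ⁻¹ = rm (φ x) :=
  Perm.ext fun y => by simp [au h]

theorem coml (h : φ ∈ inn Q) (hx : φ x = x) : Commute φ (lm x) :=
  mul_inv_eq_iff_eq_mul.1 (by rw [cl h, hx])

theorem comr (h : φ ∈ inn Q) (hx : φ x = x) : Commute φ (rm x) :=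
  mul_inv_eq_iff_eq_mul.1 (by rw [cr h, hx])

theorem fix_of_com (h : φ 1 = 1) (hc : Commute φ g) : φ (g 1) = g 1 := by
  rw [← Perm.mul_apply, hc.eq, Perm.mul_apply, h]

theorem dec (h : g ∈ mlt Q) (h' : φ ∈ mlt Q) (e : g 1 = φ 1) : φ⁻¹ * g ∈ inn Q :=
  mk_inn (mul_mem (inv_mem h') h) (by rw [Perm.mul_apply, e, ia])

/-- The inner mapping comparing left and right translation. -/
def tm (x : Q) : Perm Q := (rm x)⁻¹ * lm x

theorem tm_mem (x : Q) : tm x ∈ inn Q :=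
  dec (lm_mem x) (rm_mem x) (by rw [lm_app, rm_app, lone, rone])

theorem flex (x : Q) : Commute (lm x) (rm x) := by
  have := comr (tm_mem x) (rmi x x)
  exact cm ((Commute.refl (rm x)).mul_left this) (by simp [tm]) rfl

/-- The elements whose right translation commutes with the left translation by `x`. -/
def nn (x : Q) : Set Q := {y | Commute (lm x) (rm y)}

theorem nn_mul (hy : y ∈ nn x) (hz : z ∈ nn x) : y * z ∈ nn x := by
  have h1 : (rm (y * z))⁻¹ * (rm z * rm y) ∈ inn Q :=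
    dec (mul_mem (rm_mem z) (rm_mem y)) (rm_mem _) (by simp [lone])
  have h2 := coml h1 (x := x) (by
    have : x * y * z = x * (y * z) := (congrArg (· y) hz.eq).symm
    simp only [Perm.mul_apply, rm_app, this, rmi])
  exact cm ((Commute.mul_right hz hy).mul_right h2.symm.inv_right) rfl (by group)

theorem nn_mul' (hy : x ∈ nn y) (hz : x ∈ nn z) : x ∈ nn (y * z) := by
  have h1 : (lm (y * z))⁻¹ * (lm y * lm z) ∈ inn Q :=
    dec (mul_mem (lm_mem y) (lm_mem z)) (lm_mem _) (by simp [rone])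
  have h2 := comr h1 (x := x) (by
    have : y * (z * x) = y * z * x := congrArg (· z) hy.eq
    simp only [Perm.mul_apply, lm_app, this, lmi])
  exact cm ((Commute.mul_left hy hz).mul_left h2.inv_left) (by group) rfl

theorem nn_map (h : φ ∈ inn Q) (hy : y ∈ nn x) : φ y ∈ nn (φ x) := by
  have := Commute.cj hy φ
  rwa [cl h, cr h] at this

/-- Powers of an element. -/
def pw (x : Q) (i : ℤ) : Q := (lm x ^ i) 1

theorem pw_zero (x : Q) : pw x 0 = 1 := rfl

theorem pw_one (x : Q) : pw x 1 = x := by simp [pw, rone]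

theorem pw_succ (x : Q) (i : ℤ) : pw x (i + 1) = x * pw x i := by
  rw [pw, add_comm, zpow_add, zpow_one]; rfl

theorem sub_pw {S : Set Q} (hS : IsSubloop S) (hx : x ∈ S) (i : ℤ) : pw x i ∈ S := by
  induction i using Int.induction_on with
  | zero => exact hS.one_mem
  | succ i ih => rw [pw_succ]; exact hS.mul_mem _ hx _ ih
  | pred i ih => exact hS.ldiv_mem _ hx _ ih _ (by rw [← pw_succ, sub_add_cancel])

theorem map_pw (h : φ ∈ inn Q) (x : Q) (i : ℤ) : φ (pw x i) = pw (φ x) i := by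
  rw [pw, pw, ← cl h, conj_zpow, Perm.mul_apply, Perm.mul_apply, inn_one (inv_mem h)]

theorem pw_rm (x : Q) (i : ℤ) : (rm x ^ i) 1 = pw x i := by
  have c : Commute (rm x) (tm x) := (Commute.refl _).inv_right.mul_right (flex x).symm
  have e : lm x = rm x * tm x := by simp [tm]
  rw [pw, e, c.mul_zpow, Perm.mul_apply, inn_one (zpow_mem (tm_mem x) i)]

theorem iv_aux (x : Q) : (lm x)⁻¹ 1 * x = 1 := by
  have := congrArg (· 1) (flex x).inv_left.eq
  simp only [Perm.mul_apply, rm_app, lone, lmi_self] at this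
  exact this.symm

variable (Q) in
/-- Inversion. -/
def iv : Perm Q := Function.Involutive.toPerm (fun x => (lm x)⁻¹ 1) fun x => by
  rw [Perm.inv_eq_iff_eq, lm_app, iv_aux]

theorem mul_iv (x : Q) : x * iv Q x = 1 := lmi' x 1

theorem iv_mul (x : Q) : iv Q x * x = 1 := iv_aux x

theorem iv_iv (x : Q) : iv Q (iv Q x) = x := lcan (by rw [mul_iv, iv_mul])

theorem iv_sq : iv Q * iv Q = 1 := Perm.ext iv_iv

theorem iv_inv : (iv Q)⁻¹ = iv Q := inv_eq_of_mul_eq_one_right iv_sq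

theorem iv_one : iv Q 1 = 1 := by rw [← lone (iv Q 1), mul_iv]

theorem com_iv (h : φ ∈ inn Q) : Commute φ (iv Q) :=
  Perm.ext fun x => lcan (a := φ x) (by
    rw [Perm.mul_apply, ← au h, mul_iv, Perm.mul_apply, mul_iv, inn_one h])

theorem aaip (x : Q) : iv Q * lm x * (iv Q)⁻¹ = rm (iv Q x) := by
  rw [← inv_inj, iv_inv]
  ext y
  have h1 : (lm (y * x))⁻¹ * (lm y * lm x) ∈ inn Q :=
    dec (mul_mem (lm_mem y) (lm_mem x)) (lm_mem _) (by simp [rone])
  set η := (lm (y * x))⁻¹ * (lm y * lm x) with hη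
  have e : ∀ u, y * x * η u = y * (x * u) := fun u => lmi' _ _
  have e1 : η y = y := lcan ((e y).trans (congrArg (· x) (flex y).eq))
  have e2 : η ((lm x)⁻¹ (iv Q y)) = iv Q (y * x) := lcan (by rw [e, lmi', mul_iv, mul_iv])
  have e3 : η ((rm (iv Q x))⁻¹ y) = y * x :=
    rcan (a := η (iv Q x)) (by rw [← au h1, rmi', e, mul_iv, rone, e1])
  apply η.injective
  have e4 : ∀ u, η (iv Q u) = iv Q (η u) := fun u => congrArg (· u) (com_iv h1).eq
  rw [e3, mul_inv_rev, mul_inv_rev, iv_inv]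
  show η (iv Q ((lm x)⁻¹ (iv Q y))) = _
  rw [e4, e2, iv_iv]

theorem aaip' (x : Q) : iv Q * rm x * (iv Q)⁻¹ = lm (iv Q x) := by
  have := aaip (iv Q x)
  rw [iv_iv] at this
  rw [← this, iv_inv]
  simp only [← mul_assoc, iv_sq, one_mul]
  rw [mul_assoc, iv_sq, mul_one]

theorem iv_cj (h : g ∈ mlt Q) : iv Q * g * (iv Q)⁻¹ ∈ mlt Q :=
  mlt_le (K := (mlt Q).comap (MulAut.conj (iv Q)).toMonoidHom)
    (fun a => show iv Q * lm a * (iv Q)⁻¹ ∈ mlt Q from (aaip a).symm ▸ rm_mem _)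
    (fun a => show iv Q * rm a * (iv Q)⁻¹ ∈ mlt Q from (aaip' a).symm ▸ lm_mem _) h

theorem iv_pw (x : Q) (i : ℤ) : iv Q (pw x i) = pw (iv Q x) i := by
  rw [← pw_rm (iv Q x), ← aaip, conj_zpow, iv_inv, Perm.mul_apply, Perm.mul_apply, iv_one, pw]

/-- The point reflection at `y`. -/
def tt (y : Q) : Perm Q := lm y * iv Q * (lm y)⁻¹

theorem tt_one : tt (1 : Q) = iv Q := by simp [tt, lm_one]

theorem tt_eq (h : g ∈ mlt Q) : tt (g 1) = g * iv Q * g⁻¹ := by
  have := com_iv (dec h (lm_mem (g 1)) (by rw [lm_app, rone]))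
  calc _ = lm (g 1) * (iv Q * ((lm (g 1))⁻¹ * g)) * g⁻¹ := by rw [tt]; group
    _ = _ := by rw [← this.eq]; group

variable (Q) in
/-- The permutations which permute the point reflections as they permute the points. -/
def ext : Subgroup (Perm Q) where
  carrier := {g | ∀ y, g * tt y * g⁻¹ = tt (g y)}
  one_mem' y := by simp
  mul_mem' {a b} ha hb y := by
    rw [Perm.mul_apply, ← ha, ← hb]; group
  inv_mem' {a} ha y := by
    conv_lhs => rw [← ai a y, ← ha]
    group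

theorem mlt_ext : mlt Q ≤ ext Q := fun g h y => by
  have := tt_eq (mul_mem h (lm_mem y))
  rw [Perm.mul_apply, lm_app, rone] at this
  rw [this, tt]; group

theorem cjt (h : g ∈ mlt Q) (y : Q) : g * tt y * g⁻¹ = tt (g y) := mlt_ext h y

theorem iv_ext : iv Q ∈ ext Q := fun y => by
  have := tt_eq (rm_mem (iv Q y))
  rw [rm_app, lone] at this
  rw [this, ← aaip, tt]; group

theorem tt_ext (y : Q) : tt y ∈ ext Q :=
  mul_mem (mul_mem (mlt_ext (lm_mem y)) iv_ext) (inv_mem (mlt_ext (lm_mem y)))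

theorem refl_tt : Refl (ext Q) (Set.range (tt (Q := Q))) where
  le := by rintro _ ⟨y, rfl⟩; exact tt_ext y
  sq := by
    rintro _ ⟨y, rfl⟩
    calc _ = lm y * (iv Q * iv Q) * (lm y)⁻¹ := by rw [tt]; group
      _ = 1 := by rw [iv_sq]; group
  cj := by rintro g hg _ ⟨y, rfl⟩; exact ⟨_, (hg y).symm⟩

theorem tt_cj (y : Q) (h : g ∈ mlt Q) : tt y * g * (tt y)⁻¹ ∈ mlt Q := by
  have := mul_mem (mul_mem (lm_mem y) (iv_cj (mul_mem (mul_mem (inv_mem (lm_mem y)) h) (lm_mem y))))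
    (inv_mem (lm_mem y))
  convert this using 1
  rw [tt]; group

theorem tt_mul (y z : Q) : tt y * tt z ∈ mlt Q := by
  have := mul_mem (mul_mem (lm_mem y) (iv_cj (mul_mem (inv_mem (lm_mem y)) (lm_mem z))))
    (inv_mem (lm_mem z))
  convert this using 1
  rw [tt, tt, iv_inv]; group

theorem rot_lm (x y : Q) : rot (lm x) (tt y) = tt (x * y) * tt y := by
  rw [rot, cjt (lm_mem x), lm_app]

variable [Finite Q]

theorem nn_sub (x : Q) : IsSubloop (nn x) :=
  sub_of_mul (show Commute _ _ from rm_one (Q := Q) ▸ Commute.one_right _)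
    fun _ ha _ hb => nn_mul ha hb

theorem nn_sub' (x : Q) : IsSubloop {y | x ∈ nn y} :=
  sub_of_mul (show Commute _ _ from lm_one (Q := Q) ▸ Commute.one_left _)
    fun _ ha _ hb => nn_mul' ha hb

theorem pw_nn (x : Q) (i j : ℤ) : pw x i ∈ nn (pw x j) :=
  sub_pw (nn_sub _) (sub_pw (nn_sub' x) (flex x) j) i

theorem tt_pw (x : Q) (i : ℤ) : tt (pw x i) = rot (lm x) (iv Q) ^ i * iv Q := by
  have c : Commute (lm x) (rot (lm x) (iv Q)) := by
    have h1 : Commute (lm x) (rm (iv Q x)) := by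
      have := pw_nn x (-1) 1
      rwa [pw_one] at this
    rw [← aaip] at h1
    refine cm ((Commute.refl _).mul_right h1.inv_right) rfl ?_
    rw [rot, mul_inv_rev, mul_inv_rev, iv_inv, iv_inv]; group
  rw [pw, tt_eq (zpow_mem (lm_mem x) i)]
  exact rot_pow iv_sq c i

theorem t1 (x : Q) (i : ℤ) (y : Q) :
    lm (pw x i) * tt y * (lm (pw x i))⁻¹ = rot (lm x) (tt y) ^ i * tt y := by
  have e1 := cjt (rm_mem y) (pw x i)
  have e2 := cjt (rm_mem y) x
  have e3 := cjt (rm_mem y) 1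
  rw [rm_app] at e1 e2 e3
  rw [lone, tt_one] at e3
  rw [cjt (lm_mem _), lm_app, ← e1, tt_pw, rot_lm, ← e2, ← e3, ← tt_one, rot_lm, rone]
  rw [show rm y * tt x * (rm y)⁻¹ * (rm y * tt 1 * (rm y)⁻¹) = rm y * (tt x * tt 1) * (rm y)⁻¹ by
    group, conj_zpow]
  group

theorem orbit_normal {K : Subgroup (Perm Q)} (h1 : K ≤ mlt Q)
    (h2 : inn Q ≤ normalizer (K : Set (Perm Q))) : IsNormal {y | ∃ k ∈ K, k 1 = y} := by
  have h3 : ∀ φ ∈ inn Q, ∀ k ∈ K, (φ * k * φ⁻¹) 1 = φ (k 1) := fun φ h k _ => by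
    rw [Perm.mul_apply, Perm.mul_apply, inn_one (inv_mem h)]
  refine ⟨sub_of_mul ⟨1, one_mem _, rfl⟩ ?_, ?_⟩
  · rintro _ ⟨k, hk, rfl⟩ _ ⟨k', hk', rfl⟩
    have := dec (lm_mem (k 1)) (h1 hk) (by rw [lm_app, rone])
    refine ⟨_, mul_mem hk (conj_mem (h2 this) hk'), ?_⟩
    rw [Perm.mul_apply, h3 _ this _ hk', Perm.mul_apply, ai, lm_app]
  · rintro φ hφ h _ ⟨k, hk, rfl⟩
    exact ⟨_, conj_mem (h2 ⟨hφ, h⟩) hk, h3 φ ⟨hφ, h⟩ k hk⟩

theorem norm_of_trans {K : Subgroup (Perm Q)} (h1 : K ≤ mlt Q)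
    (h2 : inn Q ≤ normalizer (K : Set (Perm Q))) (h3 : ∀ y, ∃ k ∈ K, k 1 = y) :
    mlt Q ≤ normalizer (K : Set (Perm Q)) := fun g hg => by
  obtain ⟨k, hk, e⟩ := h3 (g 1)
  have := mul_mem (le_normalizer hk) (h2 (dec hg (h1 hk) e.symm))
  rwa [mul_inv_cancel_left] at this

theorem trans_or (hS : IsSimple Q) {K : Subgroup (Perm Q)} (h1 : K ≤ mlt Q)
    (h2 : inn Q ≤ normalizer (K : Set (Perm Q))) : (∀ k ∈ K, k 1 = 1) ∨ ∀ y, ∃ k ∈ K, k 1 = y :=
  (hS.2 _ (orbit_normal h1 h2)).imp (fun h k hk => h.le ⟨k, hk, rfl⟩) fun h y => h.ge trivial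

theorem trans_of_ne (hS : IsSimple Q) {K : Subgroup (Perm Q)} (h1 : K ≤ mlt Q)
    (h2 : mlt Q ≤ normalizer (K : Set (Perm Q))) (h3 : K ≠ ⊥) (y : Q) : ∃ k ∈ K, k 1 = y := by
  refine (trans_or hS h1 (inf_le_left.trans h2)).resolve_left (fun h => h3 ?_) y
  refine eq_bot_iff.2 fun k hk => Perm.ext fun y => ?_
  have := h _ (conj_mem' (h2 (lm_mem y)) hk)
  rwa [Perm.mul_apply, Perm.mul_apply, Perm.inv_eq_iff_eq, lm_app, rone] at this

theorem fix_or (hS : IsSimple Q) {K : Subgroup (Perm Q)} (h1 : K ≤ inn Q)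
    (h2 : inn Q ≤ normalizer (K : Set (Perm Q))) : (∀ y, (∀ k ∈ K, k y = y) → y = 1) ∨ K = ⊥ := by
  refine (hS.2 {y | ∀ k ∈ K, k y = y} ⟨sub_of_mul (fun k hk => inn_one (h1 hk))
    fun a ha b hb k hk => by rw [au (h1 hk), ha k hk, hb k hk], fun φ hφ h y hy k hk => ?_⟩).imp
    (fun h y hy => h.le hy) fun h => eq_bot_iff.2 fun k hk => Perm.ext fun y => h.ge trivial k hk
  have := hy _ (conj_mem' (h2 ⟨hφ, h⟩) hk)
  rwa [Perm.mul_apply, Perm.mul_apply, Perm.inv_eq_iff_eq] at this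

theorem op_inn (hS : IsSimple Q) {p : ℕ} [Fact p.Prime] (hp : p ∣ Nat.card Q) :
    Op p (inn Q) = ⊥ := by
  refine (fix_or hS (Op_le _ _) (le_normalizer_Op _ _)).resolve_left fun h => ?_
  obtain ⟨y, h1, h2⟩ := (isPGroup_Op p (inn Q)).exists_fixed_point_of_prime_dvd_card_of_fixed_point
    Q hp (a := 1) fun k => inn_one (Op_le _ _ k.2)
  exact h2 (h y fun k hk => h1 ⟨k, hk⟩).symm

theorem dichotomy (hS : IsSimple Q) :
    Function.Injective (tt (Q := Q)) ∨ ((∀ x y : Q, x * y = y * x) ∧ ∀ x : Q, x * x = 1) := by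
  have h0 : inn Q ≤ mlt Q ⊓ centralizer {iv Q} := fun φ h =>
    ⟨h.1, mem_centralizer_singleton_iff.2 (com_iv h)⟩
  refine (trans_or hS inf_le_left (h0.trans le_normalizer)).imp (fun h y z e => ?_) fun h => ?_
  · have h1 := mul_mem (inv_mem (lm_mem z)) (lm_mem y)
    have := h _ ⟨h1, mem_centralizer_singleton_iff.2 (by
      rw [tt, tt] at e
      calc _ = (lm z)⁻¹ * (lm y * iv Q * (lm y)⁻¹) * lm y := by group
        _ = _ := by rw [e]; group)⟩
    rwa [Perm.mul_apply, Perm.inv_eq_iff_eq, lm_app, lm_app, rone, rone] at this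
  · have h1 : ∀ x : Q, rm (iv Q x) = lm x := fun x => by
      obtain ⟨k, hk, e⟩ := h x
      have := mul_mem hk (h0 (dec (lm_mem x) hk.1 (by rw [e, lm_app, rone])))
      rw [mul_inv_cancel_left] at this
      rw [← aaip, ← mem_centralizer_singleton_iff.1 this.2, mul_inv_cancel_right]
    have h2 : ∀ x : Q, iv Q x = x := fun x => by simpa [lone, rone] using congrArg (· 1) (h1 x)
    exact ⟨fun x y => by simpa [h2] using (congrArg (· y) (h1 x)).symm,
      fun x => by simpa only [h2] using mul_iv x⟩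

end

end Pool.Agent.ALoop.S
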