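import Pool.Agent.P.MP_b7c14b_al.S.Loop

/-! Elements of odd prime order in a simple automorphic loop which is not of affine type. -/

namespace Pool.Agent.ALoop.S

open Subgroup Pool.Agent.P.MP_11c1cd_al Equiv

noncomputable section

variable {Q : Type} [Mul Q] [One Q] [IsALoop Q] [Finite Q]

variable (Q) in
/-- Simple, point reflections are distinct, and the multiplication group has trivial Fitting
subgroup. -/
structure Gen : Prop where
  simple : IsSimple Q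
  inj : Function.Injective (tt (Q := Q))
  op : ∀ p : ℕ, p.Prime → Op p (mlt Q) = ⊥

/-- The inner mapping measuring the failure of left and right translations to commute. -/
def hm (x w : Q) : Perm Q := (lm x)⁻¹ * (rm w)⁻¹ * lm x * rm w

omit [Finite Q] in
theorem hm_mem (x w : Q) : hm x w ∈ inn Q :=
  mk_inn (mul_mem (mul_mem (mul_mem (inv_mem (lm_mem _)) (inv_mem (rm_mem _))) (lm_mem _))
    (rm_mem _)) (by simp only [hm, Perm.mul_apply, rm_app, lm_app, lone, rmi, lmi_self])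

namespace Gen

variable (Ω : Gen Q)
include Ω

theorem op' (p : ℕ) (hp : p.Prime) : Op p (ext Q) ⊓ mlt Q = ⊥ :=
  eq_bot_iff.2 (Ω.op p hp ▸ inf_le_Op (isPGroup_Op p _) (mlt_ext.trans (le_normalizer_Op p _)))

theorem exists_odd : ∃ (p : ℕ) (x : Q), p.Prime ∧ Odd p ∧ x ≠ 1 ∧ pw x p = 1 := by
  have e : ∀ x : Q, rot (lm x) (iv Q) = tt x * iv Q := fun x => by
    rw [← tt_one, rot_lm, rone]
  by_cases h : ∀ x : Q, ∃ k, (tt x * iv Q) ^ 2 ^ k = 1
  · have h1 : iv Q ∈ Op 2 (ext Q) := bs1 iv_ext fun g hg => by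
      obtain ⟨k, hk⟩ := h (g 1)
      obtain ⟨R, h1, h2, h3⟩ := dih (refl_tt.sq _ ⟨_, rfl⟩) iv_sq hk
      exact ⟨R, h1, h3, by rwa [← tt_one, hg]⟩
    have := Ω.simple.1
    obtain ⟨y, hy⟩ := exists_ne (1 : Q)
    have h2 : tt y * tt 1 ∈ Op 2 (ext Q) ⊓ mlt Q := ⟨by
      rw [tt_one]
      exact mul_mem (conj_mem (le_normalizer_Op 2 _ (mlt_ext (lm_mem y))) h1) h1, tt_mul _ _⟩
    rw [Ω.op' 2 Nat.prime_two, mem_bot, mul_eq_one_iff_eq_inv, refl_tt.inv ⟨_, rfl⟩] at h2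
    exact absurd (Ω.inj h2) hy
  · obtain ⟨x, hx⟩ := not_forall.1 h
    obtain ⟨q, a, hq, ho, h1, h2⟩ := exists_odd_prime (not_exists.1 hx)
    have h3 : tt (pw x a) * iv Q = (tt x * iv Q) ^ a := by
      rw [tt_pw, e, mul_assoc, iv_sq, mul_one, zpow_natCast]
    refine ⟨q, pw x a, hq, ho, fun h => h1 ?_, Ω.inj ?_⟩
    · rw [← h3, h, tt_one, iv_sq]
    · rw [tt_pw, e, h3, zpow_natCast, h2, one_mul, tt_one]

variable {p : ℕ} (ho : Odd p) {x w y : Q}
include ho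

theorem com (hx : pw x p = 1) (y : Q) : Commute (lm x) (rot (lm x) (tt y)) := by
  refine z2 refl_tt (mlt_ext (lm_mem x)) (fun i => ⟨lm (pw x i), ?_⟩) ⟨y, rfl⟩ (G := mlt Q) ?_ Ω.op' ho ?_
  · rintro _ ⟨y, rfl⟩
    exact t1 x i y
  · rintro _ ⟨y, rfl⟩ _ ⟨z, rfl⟩
    exact tt_mul y z
  · have := t1 x p y
    rwa [hx, lm_one, inv_one, one_mul, mul_one, zpow_natCast, eq_comm, mul_eq_right] at this

theorem lm_pw (hx : pw x p = 1) (i : ℤ) : lm (pw x i) = lm x ^ i :=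
  Perm.ext fun y => Ω.inj (by
    rw [← cjt (lm_mem _), ← cjt (zpow_mem (lm_mem _) i), t1,
      rot_pow (refl_tt.sq _ ⟨y, rfl⟩) (Ω.com ho hx y)])

theorem lm_p (hx : pw x p = 1) : lm x ^ p = 1 := by
  rw [← zpow_natCast, ← Ω.lm_pw ho hx, hx, lm_one]

theorem zs_lm (hx : pw x p = 1) : Zs (Set.range tt) (lm x) := by
  rintro _ ⟨y, rfl⟩
  refine cm ((Commute.refl _).inv_right.mul_right (Ω.com ho hx y)).inv_right rfl ?_
  rw [rot]
  nth_rw 4 [← refl_tt.inv ⟨y, rfl⟩]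
  group

omit Ω ho in
theorem c_iv (hx : pw x p = 1) : pw (iv Q x) p = 1 := by rw [← iv_pw, hx, iv_one]

omit Ω ho [Finite Q] in
theorem c_map {φ : Perm Q} (h : φ ∈ inn Q) (hx : pw x p = 1) : pw (φ x) p = 1 := by
  rw [← map_pw h, hx, inn_one h]

theorem rm_pw (hx : pw x p = 1) (i : ℤ) : rm (pw x i) = rm x ^ i := by
  rw [← iv_iv (pw x i), ← aaip, iv_pw, Ω.lm_pw ho (c_iv hx), ← conj_zpow, aaip, iv_iv]

theorem rm_p (hx : pw x p = 1) : rm x ^ p = 1 := by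
  rw [← zpow_natCast, ← Ω.rm_pw ho hx, hx, rm_one]

theorem zs_rm (hx : pw x p = 1) : Zs (Set.range tt) (rm x) := by
  have := (Ω.zs_lm ho (c_iv hx)).cj refl_tt iv_ext
  rwa [aaip, iv_iv] at this

omit Ω ho [Finite Q] in
theorem pw_two (x : Q) : pw x 2 = x * x := by
  rw [show (2 : ℤ) = 1 + 1 from rfl, pw_succ, pw_one]

theorem hm_l (hx : pw x p = 1) (w : Q) : hm x w x = x := by
  have := congrArg (· w) (Ω.lm_pw ho hx 2)
  simp only [pw_two, zpow_two, Perm.mul_apply, lm_app] at this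
  simp only [hm, Perm.mul_apply, rm_app, lm_app, ← this, rmi, lmi]

theorem hm_r (x : Q) (hw : pw w p = 1) : hm x w w = w := by
  have := congrArg (· x) (Ω.rm_pw ho hw 2)
  simp only [pw_two, zpow_two, Perm.mul_apply, rm_app] at this
  simp only [hm, Perm.mul_apply, rm_app, lm_app, this, rmi, lmi]

theorem hm_cj (hx : pw x p = 1) (w : Q) : lm x * rm w * (lm x)⁻¹ = rm w * hm x w := by
  have := (coml (hm_mem x w) (Ω.hm_l ho hx w)).eq
  calc _ = rm w * (lm x * hm x w) * (rm w)⁻¹ * rm w * (lm x)⁻¹ := by rw [hm]; group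
    _ = _ := by rw [← this]; group

theorem hm_p (hx : pw x p = 1) (w : Q) : hm x w ^ p = 1 := by
  have c := coml (hm_mem x w) (Ω.hm_l ho hx w)
  have e : lm x * hm x w = (rm w)⁻¹ * lm x * (rm w)⁻¹⁻¹ := by rw [hm]; group
  have := c.symm.mul_pow p
  rwa [e, conj_pow, Ω.lm_p ho hx, mul_one, mul_inv_cancel, one_mul, eq_comm] at this

theorem zs_hm (hx : pw x p = 1) (hw : pw w p = 1) : Zs (Set.range tt) (hm x w) := by
  have c1 := coml (hm_mem x w) (Ω.hm_l ho hx w)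
  have c2 := comr (hm_mem x w) (Ω.hm_r ho x hw)
  have e : ∀ k : ℕ, lm x ^ k * rm w * (lm x ^ k)⁻¹ = rm w * hm x w ^ k := by
    intro k
    induction k with
    | zero => simp
    | succ k ih =>
      calc _ = lm x ^ k * (lm x * rm w * (lm x)⁻¹) * (lm x ^ k)⁻¹ := by group
        _ = lm x ^ k * rm w * (hm x w * (lm x ^ k)⁻¹) := by rw [Ω.hm_cj ho hx]; group
        _ = _ := by rw [(c1.pow_right k).inv_right.eq, ← mul_assoc, ih, pow_succ, mul_assoc]
  have z1 := Ω.zs_rm ho hw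
  have z2 := z1.cj refl_tt (mlt_ext (lm_mem x))
  obtain ⟨k, hk⟩ := id ho
  have z3 := (z1.zpow 2).cj refl_tt (mlt_ext (pow_mem (lm_mem x) (k + 1)))
  rw [← conj_zpow, e, c2.symm.pow_right (k + 1) |>.mul_zpow, zpow_two, zpow_two, ← pow_add,
    show k + 1 + (k + 1) = p + 1 by omega, pow_succ, Ω.hm_p ho hx, one_mul] at z3
  rw [Ω.hm_cj ho hx] at z2
  intro t ht
  have c3 : Commute (rm w) (rm w * hm x w) := (Commute.refl _).mul_right c2.symm
  refine cm (slope c3 (Commute.cj c3 t) (z1 t ht) (z2 t ht) (cm (z3 t ht) ?_ ?_)) ?_ ?_ <;> group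

theorem quad_pt {h : Perm Q} (h1 : h ∈ inn Q) (h2 : Zs (Set.range tt) h) (h3 : h ^ p = 1)
    {δ : Q} (e : δ * y = h y) : pw δ p = 1 ∧ h δ = δ := by
  have c : Commute h (rot h (tt y)) := by
    refine cm ((Commute.refl _).mul_right (h2 _ ⟨y, rfl⟩).inv_right) rfl ?_
    rw [rot]
    nth_rw 2 [← refl_tt.inv ⟨y, rfl⟩]
    group
  have e1 : ∀ i : ℤ, pw δ i * y = (h ^ i) y := fun i => Ω.inj (by
    rw [← lm_app, ← cjt (lm_mem _), ← cjt ((mlt Q).zpow_mem h1.1 i), t1,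
      rot_pow (refl_tt.sq _ ⟨y, rfl⟩) c, rot_lm, e, rot, cjt h1.1])
  have e2 : pw δ p = 1 := rcan (a := y) (by rw [e1, zpow_natCast, h3, lone]; rfl)
  refine ⟨e2, rcan (a := h y) ?_⟩
  rw [← au h1, e, ← Perm.mul_apply, ← zpow_two, ← e1, ← lm_app, Ω.lm_pw ho e2, zpow_two, ← e]
  rfl

end Gen

end

end Pool.Agent.ALoop.S
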