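import Pool.Agent.P.MP_b7c14b_al.S.Rot

/-! The key commutation identity, and two lemmas on quadratic action. -/

namespace Pool.Agent.ALoop.S

open Subgroup Pool.Agent.P.MP_11c1cd_al

variable {P : Type*} [Group P] {Y : Subgroup P} {D : Set P}

/-- The rotation moving the reflection `y` to its image under `b`. -/
def rot (b y : P) : P := b * y * b⁻¹ * y

theorem rot_pow {b y : P} (hy : y * y = 1) (c : Commute b (rot b y)) (i : ℤ) :
    b ^ i * y * (b ^ i)⁻¹ = rot b y ^ i * y := by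
  have e : b * y * b⁻¹ = rot b y * y := by rw [rot, mul_assoc _ y y, hy, mul_one]
  generalize rot b y = r at *
  have e1 : ∀ j : ℤ, b * (r ^ j * y) * b⁻¹ = r ^ (j + 1) * y := fun j => by
    rw [← mul_assoc, (c.zpow_right j).eq, mul_assoc, mul_assoc, ← mul_assoc b, e]; group
  induction i using Int.induction_on with
  | zero => simp
  | succ i ih => rw [← e1, ← ih]; group
  | pred i ih =>
    have := e1 (-(i : ℤ) - 1)
    rw [sub_add_cancel, ← ih] at this
    calc _ = b⁻¹ * (b ^ (-(i : ℤ)) * y * (b ^ (-(i : ℤ)))⁻¹) * b := by group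
      _ = _ := by rw [← this]; group

theorem t2 (h : Refl Y D) {b : P}
    (hT : ∀ i : ℤ, ∃ c : P, ∀ y ∈ D, c * y * c⁻¹ = rot b y ^ i * y) {y z : P} (hy : y ∈ D)
    (hz : z ∈ D) (i j : ℤ) :
    Commute ((rot b y ^ j)⁻¹ * rot b z ^ j) (z * ((rot b y ^ i)⁻¹ * rot b z ^ i) * z) := by
  have y1 := h.inv hy
  have z1 := h.inv hz
  have y2 : ∀ x, y * (y * x) = x := fun x => by rw [← mul_assoc, h.sq y hy, one_mul]
  have z2 : ∀ x, z * (z * x) = x := fun x => by rw [← mul_assoc, h.sq z hz, one_mul]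
  have y3 := h.sq y hy
  have z3 := h.sq z hz
  have hw := h.cj y (h.le y hy) z hz
  have key : ∀ i : ℤ, rot b (y * z * y⁻¹) ^ i =
      rot b y ^ i * (y * rot b z * y⁻¹) ^ i * (y * z * rot b y * (y * z)⁻¹) ^ i := by
    intro i
    obtain ⟨c, hc⟩ := hT i
    have e := hc _ hw
    have e2 : c * (y * z * y⁻¹) * c⁻¹ = c * y * c⁻¹ * (c * z * c⁻¹) * (c * y * c⁻¹) := by
      rw [y1]; group
    rw [e2, hc y hy, hc z hz] at e
    rw [conj_zpow, conj_zpow, eq_mul_inv_of_mul_eq e.symm]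
    simp [mul_assoc, y1, z1, y2]
  have k1 := key 1
  simp only [zpow_one] at k1
  have k2 := Commute.cj (abc (fun i => by rw [← k1, key]) i j) y
  have ey : ∀ i : ℤ, y * rot b y ^ i * y⁻¹ = (rot b y ^ i)⁻¹ := fun i => by
    rw [← conj_zpow, ← inv_zpow]
    congr 1
    simp [rot, mul_assoc, y1, y3]
  have ez : ∀ i : ℤ, z * rot b z ^ i * z⁻¹ = (rot b z ^ i)⁻¹ := fun i => by
    rw [← conj_zpow, ← inv_zpow]
    congr 1
    simp [rot, mul_assoc, z1, z3]
  rw [conj_zpow, conj_zpow, conj_zpow] at k2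
  refine cm k2.inv_right ?_ ?_
  · rw [← ey]
    simp [mul_assoc, y1, y2, y3]
  · calc _ = z * (rot b y ^ i)⁻¹ * z * (z * rot b z ^ i * z⁻¹) := by simp [mul_assoc, z1, z2]
      _ = _ := by rw [ez]; simp [mul_assoc, y1, z1, y2, y3]

theorem z2_aux (h : Refl Y D) {b : P} (hb : b ∈ Y)
    (hT : ∀ i : ℤ, ∃ c : P, ∀ y ∈ D, c * y * c⁻¹ = rot b y ^ i * y) {t : P} (ht : t ∈ D)
    {τ : P} (hτ : τ ∈ D) :
    Commute (τ * ((rot b t)⁻¹ * (b * rot b t * b⁻¹)) * τ⁻¹)
      (b * rot b t * b⁻¹ * (rot b t)⁻¹ * ((rot b t)⁻¹ * (b * rot b t * b⁻¹))) := by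
  have y1 := h.inv ht
  have z1 := h.inv hτ
  have y2 : ∀ x, t * (t * x) = x := fun x => by rw [← mul_assoc, h.sq t ht, one_mul]
  have z2 : ∀ x, τ * (τ * x) = x := fun x => by rw [← mul_assoc, h.sq τ hτ, one_mul]
  have y3 := h.sq t ht
  have z3 := h.sq τ hτ
  have h1 := h.cj b hb t ht
  have hm := h.cj t (h.le t ht) _ h1
  have hτ' := h.cj t (h.le t ht) _ hτ
  have e : τ * rot b t * τ * rot b τ =
      (rot b t)⁻¹ * (rot b τ * (τ * rot b t * τ)) * rot b t := by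
    have c : Commute ((rot b t)⁻¹ * rot b τ) (τ * rot b t * τ * rot b τ) := by
      refine cm (t2 h hT ht hτ (-1) 1) ?_ ?_ <;> simp [rot, mul_assoc, y1, z1, z2, z3]
    calc _ = (τ * rot b t * τ * rot b τ * ((rot b t)⁻¹ * rot b τ)) * (rot b τ)⁻¹ * rot b t := by
          group
      _ = _ := by rw [← c.eq]; group
  refine z2_core (a := rot b t * (rot b τ)⁻¹) (a' := rot b t * (rot b (t * τ * t⁻¹))⁻¹)
    (G0 := τ * rot b t * τ * rot b τ) (G1 := rot b τ * (τ * rot b t * τ)) ?_ ?_ ?_ ?_ ?_ ?_ ?_ ?_ ?_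
  · refine cm (t2 h hT ht hτ 1 (-1)).inv_right ?_ ?_ <;>
      simp [rot, mul_assoc, y1, z1, y2, z2, y3, z3]
  · refine cm (t2 h hT ht hτ (-1) (-1)) ?_ ?_ <;>
      simp [rot, mul_assoc, y1, z1, y2, z2, y3, z3]
  · refine cm (t2 h hT h1 hτ 1 (-1)).inv_right ?_ ?_ <;>
      simp [rot, mul_assoc, y1, z1, y2, z2, y3, z3]
  · refine cm (t2 h hT hm hτ (-1) (-1)) ?_ ?_ <;>
      simp [rot, mul_assoc, y1, z1, y2, z2, y3, z3]
  · refine cm (t2 h hT hτ' ht 1 (-1)).inv_inv ?_ ?_ <;>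
      simp [rot, mul_assoc, y1, z1, y2, z2, y3, z3]
  · rw [e]
    refine cm (t2 h hT hτ' ht (-1) (-1)).inv_left ?_ ?_ <;>
      simp [rot, mul_assoc, y1, z1, y2, z2, y3, z3]
  · refine cm (t2 h hT hτ' h1 (-1) (-1)).inv_left ?_ ?_ <;>
      simp [rot, mul_assoc, y1, z1, y2, z2, y3, z3]
  · rw [e]
    refine cm (t2 h hT hτ' hm 1 (-1)).inv_inv ?_ ?_ <;>
      simp [rot, mul_assoc, y1, z1, y2, z2, y3, z3]
  · refine cm (t2 h hT h1 ht 1 (-1)) ?_ ?_ <;>
      simp [rot, mul_assoc, y1, z1, y2, z2, y3, z3]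

theorem z2 [Finite P] (h : Refl Y D) {b : P} (hb : b ∈ Y)
    (hT : ∀ i : ℤ, ∃ c : P, ∀ y ∈ D, c * y * c⁻¹ = rot b y ^ i * y) {t : P} (ht : t ∈ D)
    {G : Subgroup P} (hG : ∀ y ∈ D, ∀ z ∈ D, y * z ∈ G)
    (hO : ∀ p : ℕ, p.Prime → Op p Y ⊓ G = ⊥) {q : ℕ} (hq : Odd q) (h1 : rot b t ^ q = 1) :
    Commute b (rot b t) := by
  have y1 := h.inv ht
  have y2 : ∀ x, t * (t * x) = x := fun x => by rw [← mul_assoc, h.sq t ht, one_mul]
  have y3 := h.sq t ht
  have d1 := h.cj b hb t ht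
  have hρ : rot b t ∈ Y := mul_mem (h.le _ d1) (h.le t ht)
  have hρ1 : b * rot b t * b⁻¹ ∈ Y := mul_mem (mul_mem hb hρ) (inv_mem hb)
  have d2 := h.cj _ (mul_mem hρ1 (inv_mem hρ)) _ d1
  have ew : b * rot b t * b⁻¹ * (rot b t)⁻¹ * (b * t * b⁻¹) * (b * rot b t * b⁻¹ * (rot b t)⁻¹)⁻¹ *
      (b * t * b⁻¹) = b * rot b t * b⁻¹ * (rot b t)⁻¹ * ((rot b t)⁻¹ * (b * rot b t * b⁻¹)) := by
    simp [rot, mul_assoc, y1, y2]
  have hw : b * rot b t * b⁻¹ * (rot b t)⁻¹ * ((rot b t)⁻¹ * (b * rot b t * b⁻¹)) = 1 := by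
    by_contra hne
    rw [← ew] at hne
    obtain ⟨p, k, hp, h2, h3⟩ := rot_mem_Op h d2 d1 (by
      rw [ew]
      intro τ hτ
      have c1 := z2_aux h hb hT ht hτ
      have c2 := (Commute.cj (z2_aux h hb hT ht (h.cj _ (h.le _ d1) _ hτ)) (b * t * b⁻¹)).inv_inv
      refine cm (Commute.mul_left (cm c2 rfl ?_) c1).symm rfl ?_ <;>
        simp [rot, mul_assoc, y1, y2, y3]) hne
    exact h2 (mem_bot.1 (hO p hp ▸ ⟨h3, pow_mem (hG _ d2 _ d1) k⟩))
  have h2 : (b * rot b t * b⁻¹) ^ q = 1 := by rw [conj_pow, h1]; group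
  show b * rot b t = rot b t * b
  rw [← mul_inv_eq_iff_eq_mul]
  generalize b * rot b t * b⁻¹ = σ at *
  generalize rot b t = ρ at *
  obtain ⟨e, rfl⟩ : ∃ e, σ = ρ * e := ⟨ρ⁻¹ * σ, by group⟩
  have e1 : ρ * e * ρ⁻¹ = e⁻¹ := by
    rw [eq_inv_iff_mul_eq_one, ← hw]; group
  have e2 : Commute (ρ * ρ) e := by
    show ρ * ρ * e = e * (ρ * ρ)
    calc _ = ρ * (ρ * e * ρ⁻¹) * ρ := by group
      _ = ρ * e⁻¹ * ρ := by rw [e1]
      _ = (ρ * e * ρ⁻¹)⁻¹ * (ρ * ρ) := by group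
      _ = _ := by rw [e1, inv_inv]
  obtain ⟨k, rfl⟩ := id hq
  have e3 : Commute ρ e := by
    have := (e2.pow_left (k + 1))
    rwa [← pow_two, ← pow_mul, show 2 * (k + 1) = 2 * k + 1 + 1 by ring, pow_succ, h1,
      one_mul] at this
  rw [e3.mul_pow, h1, one_mul] at h2
  rw [e3.eq, mul_inv_cancel_right] at e1
  rw [eq_one_of_odd hq h2 (mul_eq_one_iff_eq_inv.2 e1), mul_one]

theorem quad {L : Type*} [Group L] [Finite L] {p : ℕ} [Fact p.Prime] (α : MulAut L)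
    (h1 : ∀ g, α (α g * g⁻¹) * (α g * g⁻¹)⁻¹ ∈ center L) (h2 : ∀ g, (α g * g⁻¹) ^ p ∈ center L)
    {b : L} (hb : b ^ p = 1) : α b * b⁻¹ ∈ Op p (⊤ : Subgroup L) := by
  have hp : p.Prime := Fact.out
  let π := QuotientGroup.mk' (center L)
  have hπ : ∀ x, π x = 1 ↔ x ∈ center L := fun x => QuotientGroup.eq_one_iff x
  let c : L → L := fun g => α g * g⁻¹
  have f1 : ∀ g, π (α (c g)) = π (c g) := fun g => by
    rw [← mul_inv_eq_one, ← map_inv, ← map_mul]
    exact (hπ _).2 (h1 g)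
  have f2 : ∀ l g, l * c g * l⁻¹ = (c l)⁻¹ * c (l * g) := fun l g => by
    simp only [c, map_mul]; group
  have f3 : ∀ l l', Commute (π (c l)) (π (c l')) := by
    intro l l'
    obtain ⟨g, rfl⟩ : ∃ g, l' = l * g := ⟨l⁻¹ * l', by group⟩
    have e1 : π (α (l * c g * l⁻¹)) = π (l * c g * l⁻¹) := by
      rw [f2, map_mul α, map_inv α, map_mul π, map_inv π, f1, f1, ← map_inv π, ← map_mul π]
    have e2 : π (α (l * c g * l⁻¹)) = π (c l) * π (l * c g * l⁻¹) * (π (c l))⁻¹ := by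
      rw [map_mul, map_mul, map_mul, map_mul, f1]
      simp only [c, map_mul, map_inv]
      group
    rw [e1, f2, map_mul, map_inv] at e2
    show π (c l) * π (c (l * g)) = π (c (l * g)) * π (c l)
    calc _ = π (c l) * (π (c l) * ((π (c l))⁻¹ * π (c (l * g))) * (π (c l))⁻¹) * π (c l) := by group
      _ = _ := by rw [← e2]; group
  let T := (closure (Set.range fun g => π (c g))).comap π
  have f4 : ∀ x ∈ closure (Set.range fun g => π (c g)), x ^ p = 1 := by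
    intro x hx
    induction hx using closure_induction with
    | mem a ha =>
      obtain ⟨g, rfl⟩ := ha
      exact (map_pow π _ _).symm.trans ((hπ _).2 (h2 g))
    | one => exact one_pow _
    | mul a b ha hb i j =>
      rw [(commute_closure (by rintro _ ⟨_, rfl⟩ _ ⟨_, rfl⟩; exact f3 _ _) ha hb).mul_pow, i, j,
        one_mul]
    | inv a _ i => rw [inv_pow, i, inv_one]
  have f5 : ∀ g ∈ T, ∃ k, ∀ g' ∈ T, Commute (g ^ p ^ k) g' := fun g hg =>
    ⟨1, fun g' _ => (mem_center_iff.1 ((hπ _).1 (by rw [pow_one, map_pow]; exact f4 _ hg)) g').symm⟩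
  have f6 : ⊤ ≤ normalizer (T : Set L) := by
    intro l _
    refine mem_normalizer_fintype fun x hx => ?_
    have := conj_mem (mem_norm_closure (S := Set.range fun g => π (c g)) (g := π l) (by
      rintro _ ⟨g, rfl⟩
      rw [← map_inv, ← map_mul, ← map_mul, f2, map_mul, map_inv]
      exact mul_mem (inv_mem (subset_closure ⟨l, rfl⟩)) (subset_closure ⟨_, rfl⟩))) hx
    exact this
  have f7 := f6.trans (normalizer_le_normalizer_Op p T)
  refine le_Op le_top f7 (isPGroup_Op p T) ?_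
  have hu : c b ∈ T := subset_closure ⟨b, rfl⟩
  have hN : (Op p T).Normal := normalizer_eq_top_iff.1 (top_le_iff.1 f7)
  let ψ := QuotientGroup.mk' (Op p T)
  have hψ : ∀ x, ψ x = 1 ↔ x ∈ Op p T := fun x => QuotientGroup.eq_one_iff x
  obtain ⟨k, m, hm, e⟩ := Nat.exists_eq_pow_mul_and_not_dvd (orderOf_pos (c b)).ne' p hp.ne_one
  have g1 : ψ (c b) ^ m = 1 := by
    rw [← map_pow, hψ]
    exact mem_Op_of_central f5 (pow_mem hu m) (k := k)
      (by rw [← pow_mul, mul_comm, ← e, pow_orderOf_eq_one])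
  have g2 : Commute (ψ (c b)) (ψ b) := by
    have c1 : Commute (ψ (c b) ^ p) (ψ b) := by
      rw [← map_pow]
      exact Commute.map (mem_center_iff.1 (h2 b) b).symm ψ
    obtain ⟨j, hj⟩ := exists_pow_eq_self_of_coprime (x := ψ (c b)) (n := p)
      (((Nat.Prime.coprime_iff_not_dvd hp).2 hm).coprime_dvd_right (orderOf_dvd_of_pow_eq_one g1))
    exact hj ▸ c1.pow_left j
  have g3 : (c b) ^ p ∈ Op p T := by
    have : ψ (α b) = ψ (c b) * ψ b := by simp [c]
    have g4 : ψ (α b) ^ p = 1 := by rw [← map_pow, ← map_pow, hb, map_one, map_one]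
    rwa [this, g2.mul_pow, ← map_pow ψ b, hb, map_one, mul_one, ← map_pow, hψ] at g4
  obtain ⟨j, hj⟩ := pg_pow (isPGroup_Op p T) g3
  exact mem_Op_of_central f5 hu (k := j + 1) (by rw [pow_succ', pow_mul, hj])

theorem sup_ind {A B : Subgroup P} {q : ∀ x, x ∈ A ⊔ B → Prop}
    (l : ∀ a (ha : a ∈ A), q a (mem_sup_left ha)) (r : ∀ a (ha : a ∈ B), q a (mem_sup_right ha))
    (mul : ∀ a b ha hb, q a ha → q b hb → q (a * b) (mul_mem ha hb))
    (inv : ∀ a ha, q a ha → q a⁻¹ (inv_mem ha)) {x : P} (hx : x ∈ A ⊔ B) : q x hx := by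
  have e : closure ((A : Set P) ∪ B) = A ⊔ B := by rw [Subgroup.closure_union, closure_eq, closure_eq]
  have : ∀ x (hx : x ∈ closure ((A : Set P) ∪ B)), q x (e ▸ hx) := by
    intro x hx
    induction hx using closure_induction with
    | mem a ha =>
      obtain ha | ha := ha
      · exact l a ha
      · exact r a ha
    | one => exact l 1 (one_mem _)
    | mul a b _ _ i j => exact mul _ _ _ _ i j
    | inv a _ i => exact inv _ _ i
  exact this x (e ▸ hx)

theorem bs1 [Finite P] {p : ℕ} [Fact p.Prime] {x : P} (hx : x ∈ Y)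
    (h : ∀ g ∈ Y, ∃ R : Subgroup P, IsPGroup p R ∧ x ∈ R ∧ g * x * g⁻¹ ∈ R) : x ∈ Op p Y := by
  refine le_Op_of_pairs (L := zpowers x) (zpowers_le.2 hx) ?_ (mem_zpowers x)
  rintro _ ⟨i, rfl⟩ g hg
  obtain ⟨R, h1, h2, h3⟩ := h g hg
  refine ⟨R, h1, zpow_mem h2 i, ?_⟩
  show g * x ^ i * g⁻¹ ∈ _
  rw [← conj_zpow]
  exact zpow_mem h3 i

theorem mem_of_coprime [Finite P] {p : ℕ} [Fact p.Prime] {Λ J : Subgroup P} (hJ : IsPGroup p J)
    (hn : J ≤ normalizer (Λ : Set P)) {g : P} (hg : g ∈ Λ ⊔ J) (hc : (orderOf g).Coprime p) :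
    g ∈ Λ := by
  have hN : (Λ.subgroupOf (Λ ⊔ J)).Normal :=
    normal_subgroupOf_of_le_normalizer (sup_le le_normalizer hn)
  let π := QuotientGroup.mk' (Λ.subgroupOf (Λ ⊔ J))
  have hπ : ∀ x, π x = 1 ↔ x.1 ∈ Λ := fun x => QuotientGroup.eq_one_iff x
  have h1 : ∀ x : (Λ ⊔ J : Subgroup P), π x ∈ (J.subgroupOf (Λ ⊔ J)).map π := by
    rintro ⟨x, hx⟩
    induction hx using sup_ind with
    | l a ha => rw [(hπ _).2 ha]; exact one_mem _
    | r a ha => exact ⟨_, ha, rfl⟩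
    | mul a b _ _ i j => exact mul_mem i j
    | inv a _ i => exact inv_mem i
  obtain ⟨k, hk⟩ := pg_pow (hJ.comap_subtype.map π) (h1 ⟨g, hg⟩)
  rw [← map_pow, hπ] at hk
  obtain ⟨j, hj⟩ := exists_pow_eq_self_of_coprime (x := g) (n := p ^ k) (hc.symm.pow_left k)
  exact hj ▸ pow_mem hk j

theorem lemX [Finite P] {p : ℕ} [Fact p.Prime] {S : Set P} {f : P} (hf : f ^ p = 1)
    (h1 : ∀ l ∈ S, Commute (l⁻¹ * f⁻¹ * l * f) f)
    (h2 : ∀ l ∈ S, l⁻¹ * f⁻¹ * l * f ∈ normalizer (closure S : Set P))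
    (h3 : ∀ l ∈ S, ∀ l' ∈ S,
      l⁻¹ * f⁻¹ * l * f * l' * (l⁻¹ * f⁻¹ * l * f)⁻¹ * l'⁻¹ ∈ Op p (closure S))
    {e : P} (he : e ∈ closure S) (hc : (orderOf e).Coprime p) :
    f⁻¹ * e * f ∈ closure S ∧ e⁻¹ * (f⁻¹ * e * f) ∈ Op p (closure S) := by
  set Λ := closure S with hΛ
  set J := closure ((fun l => l⁻¹ * f⁻¹ * l * f) '' S) with hJ
  have jf : ∀ η ∈ J, Commute η f := fun η hη =>
    commute_closure (T := {f}) (by rintro _ ⟨l, hl, rfl⟩ _ rfl; exact h1 l hl) hη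
      (subset_closure rfl)
  have jn : J ≤ normalizer (Λ : Set P) := by
    rw [closure_le]
    rintro _ ⟨l, hl, rfl⟩
    exact h2 l hl
  have pn : Λ ⊔ J ≤ normalizer (Λ : Set P) := sup_le le_normalizer jn
  have fn : f⁻¹ ∈ normalizer ((Λ ⊔ J : Subgroup P) : Set P) := by
    rw [hΛ, hJ, ← Subgroup.closure_union]
    refine mem_norm_closure ?_
    rw [Subgroup.closure_union, inv_inv]
    rintro l (hl | hl)
    · have : f⁻¹ * l * f = l * (l⁻¹ * f⁻¹ * l * f) := by group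
      rw [this]
      exact mul_mem (mem_sup_left (subset_closure hl)) (mem_sup_right (subset_closure ⟨l, hl, rfl⟩))
    · rw [mul_assoc, (jf l (subset_closure hl)).eq, inv_mul_cancel_left]
      exact mem_sup_right (subset_closure hl)
  set N := normalizer ((Λ ⊔ J : Subgroup P) : Set P) with hN
  have fN : f ∈ N := by simpa using inv_mem fn
  have lN : Λ ≤ N := le_sup_left.trans le_normalizer
  have jN : J ≤ N := le_sup_right.trans le_normalizer
  have : ((Op p (Λ ⊔ J)).subgroupOf N).Normal :=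
    normal_subgroupOf_of_le_normalizer (normalizer_le_normalizer_Op p _)
  let π := QuotientGroup.mk' ((Op p (Λ ⊔ J)).subgroupOf N)
  have hπ : ∀ x : N, π x = 1 ↔ (x : P) ∈ Op p (Λ ⊔ J) := fun x => QuotientGroup.eq_one_iff x
  have o1 : Op p Λ ≤ Op p (Λ ⊔ J) :=
    le_Op ((Op_le p Λ).trans le_sup_left) (pn.trans (normalizer_le_normalizer_Op p Λ))
      (isPGroup_Op p Λ)
  let F : N := ⟨f, fN⟩
  have cm0 : ∀ η (hη : η ∈ J) l (hl : l ∈ Λ), Commute (π ⟨η, jN hη⟩) (π ⟨l, lN hl⟩) := by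
    intro η hη l hl
    induction hη using closure_induction with
    | mem a ha =>
      induction hl using closure_induction with
      | mem b hb =>
        obtain ⟨a, ha, rfl⟩ := ha
        rw [← commutatorElement_eq_one_iff_commute, commutatorElement_def, ← map_inv, ← map_inv,
          ← map_mul, ← map_mul, ← map_mul, hπ]
        exact o1 (h3 a ha b hb)
      | one => exact Commute.one_right _
      | mul _ _ _ _ i j => exact i.mul_right j
      | inv _ _ i => exact i.inv_right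
    | one => exact Commute.one_left _
    | mul _ _ _ _ i j => exact i.mul_left j
    | inv _ _ i => exact i.inv_left
  have cm1 : ∀ η l : N, η.1 ∈ J → l.1 ∈ Λ → Commute (π η) (π l) := fun η l hη hl =>
    cm0 _ hη _ hl
  let A : Subgroup (N × N) :=
    { carrier := {x | x.1.1 ∈ Λ ∧ x.2.1 ∈ J ∧ π (F⁻¹ * x.1 * F) = π x.1 * π x.2}
      one_mem' := ⟨one_mem _, one_mem _, by simp⟩
      mul_mem' := by
        rintro ⟨a, b⟩ ⟨c, d⟩ ⟨h1, h2, h3⟩ ⟨h4, h5, h6⟩
        refine ⟨mul_mem h1 h4, mul_mem h2 h5, ?_⟩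
        have e : F⁻¹ * (a * c) * F = F⁻¹ * a * F * (F⁻¹ * c * F) := by group
        show π (F⁻¹ * (a * c) * F) = π (a * c) * π (b * d)
        rw [e, map_mul, h3, h6, map_mul, map_mul]
        calc _ = π a * (π b * π c) * π d := by group
          _ = _ := by rw [(cm1 b c h2 h4).eq]; group
      inv_mem' := by
        rintro ⟨a, b⟩ ⟨h1, h2, h3⟩
        refine ⟨inv_mem h1, inv_mem h2, ?_⟩
        have e : F⁻¹ * a⁻¹ * F = (F⁻¹ * a * F)⁻¹ := by group
        show π (F⁻¹ * a⁻¹ * F) = π a⁻¹ * π b⁻¹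
        rw [e, map_inv, h3, ← (cm1 b a h2 h1).eq, mul_inv_rev, map_inv, map_inv] }
  have gen : ∀ l (hl : l ∈ S), ((⟨l, lN (subset_closure hl)⟩,
      ⟨_, jN (subset_closure ⟨l, hl, rfl⟩)⟩) : N × N) ∈ A := fun l hl =>
    ⟨subset_closure hl, subset_closure ⟨l, hl, rfl⟩, by
      rw [← map_mul]
      congr 1
      exact Subtype.ext (by simp [F, mul_assoc])⟩
  have a1 : ∀ l (hl : l ∈ Λ), ∃ η, ((⟨l, lN hl⟩, η) : N × N) ∈ A := by
    intro l hl
    induction hl using closure_induction with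
    | mem a ha => exact ⟨_, gen a ha⟩
    | one => exact ⟨1, A.one_mem⟩
    | mul a b _ _ i j => exact ⟨_, A.mul_mem i.choose_spec j.choose_spec⟩
    | inv a _ i => exact ⟨_, A.inv_mem i.choose_spec⟩
  have a2 : ∀ η (hη : η ∈ J), ∃ l, ((l, ⟨η, jN hη⟩) : N × N) ∈ A := by
    intro l hl
    induction hl using closure_induction with
    | mem a ha =>
      obtain ⟨a, ha, rfl⟩ := ha
      exact ⟨_, gen a ha⟩
    | one => exact ⟨1, A.one_mem⟩
    | mul a b _ _ i j => exact ⟨_, A.mul_mem i.choose_spec j.choose_spec⟩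
    | inv a _ i => exact ⟨_, A.inv_mem i.choose_spec⟩
  have a3 : ∀ η ∈ J, η ^ p ∈ Op p (Λ ⊔ J) := by
    intro η hη
    obtain ⟨l, -, -, h6⟩ := a2 η hη
    set η' : N := ⟨η, jN hη⟩
    have c1 : Commute (π η') (π F) := Commute.map (Subtype.ext (jf η hη).eq) π
    simp only [map_mul, map_inv] at h6
    have : ∀ k : ℕ, (π F ^ k)⁻¹ * π l * π F ^ k = π l * π η' ^ k := by
      intro k
      induction k with
      | zero => simp
      | succ k ih =>
        calc _ = (π F)⁻¹ * ((π F ^ k)⁻¹ * π l * π F ^ k) * π F := by rw [pow_succ]; group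
          _ = (π F)⁻¹ * π l * (π η' ^ k * π F) := by rw [ih]; group
          _ = _ := by rw [(c1.pow_left k).eq, ← mul_assoc, h6, pow_succ', mul_assoc]
    have h7 := this p
    rw [← map_pow, show F ^ p = 1 from Subtype.ext hf, map_one, inv_one, one_mul, mul_one,
      left_eq_mul, ← map_pow, hπ] at h7
    exact h7
  have jp : IsPGroup p J := by
    rintro ⟨η, hη⟩
    obtain ⟨k, hk⟩ := pg_pow (isPGroup_Op p _) (a3 η hη)
    exact ⟨k + 1, Subtype.ext (by
      show η ^ p ^ (k + 1) = 1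
      rw [pow_succ', pow_mul, hk])⟩
  have a4 : J ≤ Op p (Λ ⊔ J) := by
    refine le_sup_right.trans (le_Op (M := Op p (Λ ⊔ J) ⊔ J) (sup_le (Op_le _ _) le_sup_right) ?_
      ?_)
    · refine sup_le (fun l hl => mem_normalizer_fintype fun x hx => ?_)
        (le_sup_right.trans le_normalizer)
      have : Op p (Λ ⊔ J) ⊔ J ≤ (Op p (Λ ⊔ J) ⊔ J).comap (MulAut.conj l).toMonoidHom := by
        refine sup_le (fun y hy => mem_sup_left (conj_mem (le_normalizer_Op p _ (mem_sup_left hl)) hy))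
          fun η hη => ?_
        have c := (cm0 η hη l hl).symm
        rw [← commutatorElement_eq_one_iff_commute, commutatorElement_def, ← map_inv, ← map_inv,
          ← map_mul, ← map_mul, ← map_mul, hπ] at c
        have := mul_mem (mem_sup_left (T := J) c) (mem_sup_right hη)
        show l * η * l⁻¹ ∈ Op p (Λ ⊔ J) ⊔ J
        simpa using this
      exact this hx
    · rw [sup_comm]
      exact jp.to_sup_of_normal_right' (isPGroup_Op _ _)
        (le_sup_right.trans (le_normalizer_Op p _))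
  obtain ⟨η, -, h5, h6⟩ := a1 e he
  rw [(hπ η).2 (a4 h5), mul_one, eq_comm, ← inv_mul_eq_one, ← map_inv, ← map_mul, hπ] at h6
  have h7 : e⁻¹ * (f⁻¹ * e * f) ∈ Op p (Λ ⊔ J) := h6
  have h8 : f⁻¹ * e * f ∈ Λ := by
    refine mem_of_coprime jp jn ?_ ?_
    · have := conj_mem fn (mem_sup_left (T := J) he)
      rwa [inv_inv] at this
    · have := SemiconjBy.orderOf_eq f (x := f⁻¹ * e * f) (y := e) (by
        show f * (f⁻¹ * e * f) = e * f
        group)
      rwa [this]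
  exact ⟨h8, inf_le_Op (isPGroup_Op p _) (le_sup_left.trans (le_normalizer_Op p _))
    ⟨h7, Λ.mul_mem (Λ.inv_mem he) h8⟩⟩

end Pool.Agent.ALoop.S
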