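import Pool.Agent.P.MP_b7c14b_al.S.Grp

/-! Groups with an invariant set of involutions: rotations commuting with their mirror images. -/

namespace Pool.Agent.ALoop.S

open Subgroup Pool.Agent.P.MP_11c1cd_al

variable {P : Type*} [Group P]

theorem commute_closure {S T : Set P} (h : ∀ a ∈ S, ∀ b ∈ T, Commute a b) {a b : P}
    (ha : a ∈ closure S) (hb : b ∈ closure T) : Commute a b := by
  induction ha using closure_induction with
  | mem a ha =>
    induction hb using closure_induction with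
    | mem b hb => exact h a ha b hb
    | one => exact Commute.one_right _
    | mul _ _ _ _ i j => exact i.mul_right j
    | inv _ _ i => exact i.inv_right
  | one => exact Commute.one_left _
  | mul _ _ _ _ i j => exact i.mul_left j
  | inv _ _ i => exact i.inv_left

theorem Commute.cj {a b : P} (h : Commute a b) (g : P) :
    Commute (g * a * g⁻¹) (g * b * g⁻¹) := by
  simpa only [MulAut.conj_apply] using h.map (MulAut.conj g)

theorem cm {a b a' b' : P} (h : Commute a b) (e1 : a' = a) (e2 : b' = b) : Commute a' b' :=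
  e1 ▸ e2 ▸ h

theorem rot_half [Finite P] {p : ℕ} {n m τ : P} (hn : n ^ p = 1) (hm : m ^ p = 1)
    (hi : τ * m * τ⁻¹ = m⁻¹)
    (ha : ∀ i : ℤ, Commute n (m ^ i * τ * n * (m ^ i * τ)⁻¹))
    (hb : ∀ x ∈ closure {n, m}, Commute m (x⁻¹ * τ * x * m * (x⁻¹ * τ * x)⁻¹)) :
    ∀ g ∈ closure {n, m}, ∃ k, Commute (g ^ p ^ k) n := by
  set N := closure (Set.range fun j : ℤ => m ^ j * n * (m ^ j)⁻¹) with hN
  set N' := closure (Set.range fun j : ℤ => m ^ j * (τ * n * τ⁻¹) * (m ^ j)⁻¹) with hN'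
  have hnN : n ∈ N := subset_closure ⟨0, by simp⟩
  have hNle : N ≤ closure {n, m} := by
    rw [closure_le]
    rintro _ ⟨j, rfl⟩
    have h1 : m ^ j ∈ closure {n, m} := zpow_mem (subset_closure (by simp)) j
    exact mul_mem (mul_mem h1 (subset_closure (by simp))) (inv_mem h1)
  have hc : ∀ a ∈ N, ∀ b ∈ N', Commute a b := by
    intro a ha' b hb'
    refine commute_closure ?_ ha' hb'
    rintro _ ⟨i, rfl⟩ _ ⟨j, rfl⟩
    have := Commute.cj (ha (j - i)) (m ^ i)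
    convert this using 1
    group
  have hmN : m ∈ normalizer (N : Set P) := mem_norm_closure (by
    rintro _ ⟨j, rfl⟩
    exact subset_closure ⟨j + 1, by group⟩)
  have hmN' : m ∈ normalizer (N' : Set P) := mem_norm_closure (by
    rintro _ ⟨j, rfl⟩
    exact subset_closure ⟨j + 1, by group⟩)
  have hτ : ∀ x ∈ N, τ * x * τ⁻¹ ∈ N' := by
    have : N ≤ N'.comap (MulAut.conj τ).toMonoidHom := by
      rw [closure_le]
      rintro _ ⟨j, rfl⟩
      refine subset_closure ⟨-j, ?_⟩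
      have e : m ^ (-j) = τ * m ^ j * τ⁻¹ := by rw [← conj_zpow, hi]; group
      show m ^ (-j) * (τ * n * τ⁻¹) * (m ^ (-j))⁻¹ = τ * (m ^ j * n * (m ^ j)⁻¹) * τ⁻¹
      rw [e]; group
    exact fun x hx => this hx
  have hΓN : closure {n, m} ≤ normalizer (N : Set P) := by
    rw [closure_le]
    rintro _ (rfl | rfl)
    · exact le_normalizer hnN
    · exact hmN
  let Z := N ⊓ centralizer (N : Set P)
  have hZ : closure {n, m} ≤ normalizer (Z : Set P) := by
    intro g hg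
    refine mem_normalizer_fintype fun z hz => ⟨conj_mem (hΓN hg) hz.1, ?_⟩
    intro y hy
    have := hz.2 _ (conj_mem' (hΓN hg) hy)
    calc y * (g * z * g⁻¹) = g * (g⁻¹ * y * g * z) * g⁻¹ := by group
      _ = _ := by rw [this]; group
  have key : ∀ x ∈ N, m * (x⁻¹ * m * x) * m⁻¹ * (x⁻¹ * m * x)⁻¹ ∈ Z := by
    intro x hx
    set y := x⁻¹ * (m⁻¹ * x * m) with hy
    set x' := τ * x * τ⁻¹ with hx'
    set y' := x' * (m⁻¹ * x'⁻¹ * m) with hy'
    have hyN : y ∈ N := mul_mem (inv_mem hx) (conj_mem' hmN hx)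
    have hyN' : y' ∈ N' := mul_mem (hτ x hx) (conj_mem' hmN' (inv_mem (hτ x hx)))
    have e1 : x⁻¹ * τ * x * m * (x⁻¹ * τ * x)⁻¹ = y * y' * m⁻¹ := by
      have h1 := hc _ (conj_mem' hmN hx) _ hyN'
      calc x⁻¹ * τ * x * m * (x⁻¹ * τ * x)⁻¹
          = x⁻¹ * x' * (τ * m * τ⁻¹) * x'⁻¹ * x := by rw [hx']; group
        _ = x⁻¹ * (y' * (m⁻¹ * x * m)) * m⁻¹ := by rw [hi, hy']; group
        _ = _ := by rw [← h1.eq, hy]; group
    have h2 : Commute m (y * y') := by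
      have := (hb x (hNle hx)).mul_right (Commute.refl m)
      rwa [e1, inv_mul_cancel_right] at this
    have e2 : y⁻¹ * (m * y * m⁻¹) = y' * (m * y' * m⁻¹)⁻¹ := by
      calc y⁻¹ * (m * y * m⁻¹) = y⁻¹ * (m * (y * y')) * y'⁻¹ * m⁻¹ := by group
        _ = _ := by rw [h2.eq]; group
    have h3 : y⁻¹ * (m * y * m⁻¹) ∈ Z := by
      refine ⟨N.mul_mem (N.inv_mem hyN) (conj_mem hmN hyN), fun a ha' => ?_⟩
      rw [e2]
      exact hc a ha' _ (mul_mem hyN' (inv_mem (conj_mem hmN' hyN')))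
    have h4 := conj_mem (hZ (Subgroup.subset_closure (show m ∈ ({n, m} : Set P) by simp)))
      (Z.inv_mem h3)
    convert h4 using 1
    rw [hy]; group
  have dec : ∀ g ∈ closure {n, m}, ∃ x ∈ N, g * m * g⁻¹ = x⁻¹ * m * x := by
    have : ∀ g ∈ closure {n, m}, ∃ x ∈ N, ∃ j : ℤ, g = x * m ^ j := by
      intro g hg
      induction hg using closure_induction with
      | mem a ha' =>
        obtain rfl | rfl := ha'
        · exact ⟨a, hnN, 0, by simp⟩
        · exact ⟨1, one_mem _, 1, by simp⟩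
      | one => exact ⟨1, one_mem _, 0, by simp⟩
      | mul a b _ _ iha ihb =>
        obtain ⟨x, hx, i, rfl⟩ := iha
        obtain ⟨y, hy, j, rfl⟩ := ihb
        exact ⟨_, mul_mem hx (conj_mem (zpow_mem hmN i) hy), i + j, by group⟩
      | inv a _ ih =>
        obtain ⟨x, hx, i, rfl⟩ := ih
        exact ⟨_, conj_mem' (zpow_mem hmN i) (inv_mem hx), -i, by group⟩
    intro g hg
    obtain ⟨x, hx, j, rfl⟩ := this g hg
    exact ⟨x⁻¹, inv_mem hx, by group⟩
  intro g hg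
  obtain ⟨k, hk⟩ := pow_mem_of_quot hZ hn hm (fun g hg => by
    obtain ⟨x, hx, e⟩ := dec g hg
    rw [e]
    exact key x hx) g hg
  exact ⟨k, (hk.2 n hnN).symm⟩

/-- `D` is a set of involutions in `Y` which is invariant under conjugation by `Y`. -/
structure Refl (Y : Subgroup P) (D : Set P) : Prop where
  le : ∀ t ∈ D, t ∈ Y
  sq : ∀ t ∈ D, t * t = 1
  cj : ∀ g ∈ Y, ∀ t ∈ D, g * t * g⁻¹ ∈ D

/-- `g` commutes with all its mirror images. -/
def Zs (D : Set P) (g : P) : Prop := ∀ t ∈ D, Commute g (t * g * t⁻¹)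

variable {Y : Subgroup P} {D : Set P}

theorem Refl.inv (h : Refl Y D) {t : P} (ht : t ∈ D) : t⁻¹ = t :=
  inv_eq_of_mul_eq_one_right (h.sq t ht)

theorem Zs.cj (h : Refl Y D) {n g : P} (hn : Zs D n) (hg : g ∈ Y) : Zs D (g * n * g⁻¹) := by
  intro t ht
  have := Commute.cj (hn _ (h.cj _ (Y.inv_mem hg) t ht)) g
  convert this using 1
  group

theorem Zs.zpow {n : P} (hn : Zs D n) (i : ℤ) : Zs D (n ^ i) := by
  intro t ht
  rw [← conj_zpow]
  exact (hn t ht).zpow_zpow i i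

theorem Refl.line (h : Refl Y D) {a b : P} (ha : a ∈ D) (hb : b ∈ D) (i : ℤ) :
    (a * b) ^ i * b ∈ D := by
  have e1 : b * (a * b)⁻¹ * b⁻¹ = a * b := by
    rw [mul_inv_rev, h.inv ha, ← mul_assoc, mul_inv_cancel, one_mul, h.inv hb]
  have e2 : a = a * b * b := by rw [mul_assoc, h.sq b hb, mul_one]
  have hm : a * b ∈ Y := mul_mem (h.le a ha) (h.le b hb)
  rw [e2] at ha
  generalize a * b = r at *
  have e : ∀ j : ℤ, b * (r ^ j)⁻¹ = r ^ j * b := by
    intro j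
    calc b * (r ^ j)⁻¹ = (b * r⁻¹ * b⁻¹) ^ j * b := by rw [conj_zpow]; group
      _ = _ := by rw [e1]
  obtain ⟨j, rfl | rfl⟩ := Int.even_or_odd' i
  · have := h.cj _ (zpow_mem hm j) b hb
    rwa [mul_assoc, e, ← mul_assoc, ← zpow_add, ← two_mul] at this
  · have := h.cj _ (zpow_mem hm j) _ ha
    rw [mul_assoc, mul_assoc, e] at this
    convert this using 1
    group

theorem rot_mem_Op [Finite P] (h : Refl Y D) {a b : P} (ha : a ∈ D) (hb : b ∈ D)
    (hz : Zs D (a * b)) (h1 : a * b ≠ 1) :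
    ∃ (p : ℕ) (k : ℕ), p.Prime ∧ (a * b) ^ k ≠ 1 ∧ (a * b) ^ k ∈ Op p Y := by
  have h0 : orderOf (a * b) ≠ 1 := by simpa using h1
  obtain ⟨p, hp, k, e⟩ := Nat.exists_prime_and_dvd h0
  have hk : k ≠ 0 := by
    rintro rfl
    exact (orderOf_pos (a * b)).ne' e
  have : Fact p.Prime := ⟨hp⟩
  refine ⟨p, k, hp, pow_ne_one_of_lt_orderOf hk ?_, ?_⟩
  · rw [e]
    exact (Nat.lt_mul_iff_one_lt_left (Nat.pos_of_ne_zero hk)).2 hp.one_lt
  set n := (a * b) ^ k with hn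
  have hnp : n ^ p = 1 := by rw [hn, ← pow_mul, mul_comm, ← e, pow_orderOf_eq_one]
  have hnY : n ∈ Y := pow_mem (mul_mem (h.le a ha) (h.le b hb)) k
  have hnz : Zs D n := by simpa only [zpow_natCast] using hz.zpow k
  have hl : ∀ i : ℤ, n ^ i * b ∈ D := fun i => by
    rw [hn, ← zpow_natCast, ← zpow_mul]
    exact h.line ha hb _
  have hi : b * n * b⁻¹ = n⁻¹ := by
    have := h.sq _ (hl 1)
    rw [zpow_one] at this
    rw [h.inv hb, eq_inv_iff_mul_eq_one]
    calc b * n * b * n = b * (n * b * (n * b)) * b⁻¹ := by group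
      _ = 1 := by rw [this]; group
  have half : ∀ g ∈ Y, ∀ g' ∈ Y, ∀ x ∈ closure {g * n * g⁻¹, g' * n * g'⁻¹},
      ∃ k, Commute (x ^ p ^ k) (g * n * g⁻¹) := by
    intro g hg g' hg'
    have hle : closure {g * n * g⁻¹, g' * n * g'⁻¹} ≤ Y := by
      rw [closure_le]
      rintro _ (rfl | rfl)
      · exact mul_mem (mul_mem hg hnY) (inv_mem hg)
      · exact mul_mem (mul_mem hg' hnY) (inv_mem hg')
    refine rot_half (τ := g' * b * g'⁻¹) (by rw [conj_pow, hnp]; group)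
      (by rw [conj_pow, hnp]; group) ?_ (fun i => ?_) fun x hx => ?_
    · calc _ = g' * (b * n * b⁻¹) * g'⁻¹ := by group
        _ = _ := by rw [hi]; group
    · refine hnz.cj h hg _ ?_
      have := h.cj _ hg' _ (hl i)
      convert this using 1
      rw [conj_zpow]; group
    · refine hnz.cj h hg' _ ?_
      have := h.cj _ (inv_mem (hle hx)) _ (h.cj _ hg' _ hb)
      rwa [inv_inv] at this
  refine le_Op_of_pairs (L := zpowers n) (zpowers_le.2 hnY) ?_ (mem_zpowers n)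
  rintro _ ⟨i, rfl⟩ g hg
  have hp2 : IsPGroup p (closure {n, g * n * g⁻¹}) := by
    have hc : ∀ x ∈ closure {n, g * n * g⁻¹}, ∃ k, ∀ x' ∈ closure {n, g * n * g⁻¹},
        Commute (x ^ p ^ k) x' := by
      intro x hx
      obtain ⟨k1, h1⟩ := half 1 (one_mem _) g hg x (by simpa using hx)
      obtain ⟨k2, h2⟩ := half g hg 1 (one_mem _) x (by simpa [Set.pair_comm] using hx)
      refine ⟨k1 + k2, fun x' hx' => ?_⟩
      refine commute_closure (S := {x ^ p ^ (k1 + k2)}) ?_ (subset_closure rfl) hx'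
      rintro _ rfl _ (rfl | rfl)
      · rw [pow_add, pow_mul]
        exact Commute.pow_left (by simpa using h1) _
      · rw [pow_add, mul_comm (p ^ k1), pow_mul]
        exact h2.pow_left _
    refine pg_closure_of_Op ?_
    rintro _ (rfl | rfl)
    · exact mem_Op_of_central hc (subset_closure (by simp)) (k := 1) (by rwa [pow_one])
    · exact mem_Op_of_central hc (subset_closure (by simp)) (k := 1)
        (by rw [pow_one, conj_pow, hnp]; group)
  refine ⟨_, hp2, zpow_mem (subset_closure (by simp)) i, ?_⟩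
  show g * n ^ i * g⁻¹ ∈ _
  rw [← conj_zpow]
  exact zpow_mem (subset_closure (by simp)) i

theorem sl1 {x y x' y' : P} (h2 : Commute x' y') (h3 : Commute x x')
    (h4 : Commute y y') (h5 : Commute (x * y) (x' * y')) :
    Commute (x' * y') (x * (x' * y') * x⁻¹) := by
  have key : ∀ j : ℤ, (y * x' * y⁻¹) ^ j = x' ^ j * (x⁻¹ * y' * x) ^ j * (y'⁻¹) ^ j := by
    intro j
    have a1 := (h5.zpow_right j).eq
    rw [h2.mul_zpow] at a1
    have a2 := (h3.inv_left.zpow_right j).eq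
    have a3 := (h4.inv_left.zpow_right (-j)).eq
    have a4 : (x⁻¹ * y' * x) ^ j = x⁻¹ * y' ^ j * x := by
      have := conj_zpow (i := j) (a := x⁻¹) (b := y')
      rwa [inv_inv] at this
    rw [conj_zpow, a4]
    calc y * x' ^ j * y⁻¹ = x⁻¹ * (x * y * (x' ^ j * y' ^ j)) * (y' ^ (-j) * y⁻¹) := by group
      _ = (x⁻¹ * x' ^ j) * y' ^ j * x * y * (y⁻¹ * y' ^ (-j)) := by rw [a1, a3]; group
      _ = _ := by rw [a2]; group
  have k1 := key 1
  simp only [zpow_one] at k1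
  have k2 := abc (A := x') (B := x⁻¹ * y' * x) (C := y'⁻¹) (fun j => by rw [← k1, key]) 1 1
  simp only [zpow_one] at k2
  have k3 := Commute.cj k2 x
  have e1 : x * (x' * (x⁻¹ * y' * x)) * x⁻¹ = x' * y' := by
    calc _ = (x * x') * x⁻¹ * y' := by group
      _ = _ := by rw [h3.eq]; group
  have e2 : x * (x⁻¹ * y' * x * y'⁻¹) * x⁻¹ = x' * y' * (x * (x' * y')⁻¹ * x⁻¹) := by
    have hc : Commute x' (y' * x * y'⁻¹) := (h2.mul_right h3.symm).mul_right h2.inv_right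
    calc _ = (y' * x * y'⁻¹ * x') * x'⁻¹ * x⁻¹ := by group
      _ = _ := by rw [← hc.eq]; group
  rw [e1, e2] at k3
  have k4 := ((Commute.refl (x' * y')).inv_right.mul_right k3).inv_right
  exact cm k4 rfl (by group)

theorem slope {a b a' b' : P} (h1 : Commute a b) (h2 : Commute a' b') (h3 : Commute a a')
    (h4 : Commute b b') (h5 : Commute (a * b) (a' * b')) : Commute (a⁻¹ * b) (a'⁻¹ * b') := by
  have e1 : b * (a * b)⁻¹ = a⁻¹ := by group
  have e2 : b' * (a' * b')⁻¹ = a'⁻¹ := by group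
  have c1 : Commute b (a * b)⁻¹ := (h1.symm.mul_right (Commute.refl b)).inv_right
  have c2 : Commute b' (a' * b')⁻¹ := (h2.symm.mul_right (Commute.refl b')).inv_right
  have k1 := sl1 c2 h4 h5.inv_inv (by rw [e1, e2]; exact h3.inv_inv)
  have k2 := sl1 c1 h4.symm h5.symm.inv_inv (by rw [e1, e2]; exact h3.symm.inv_inv)
  rw [e2] at k1
  rw [e1] at k2
  have k3 : a'⁻¹ * (b * a' * b⁻¹) = a⁻¹ * (b' * a * b'⁻¹) := by
    calc _ = a'⁻¹ * a⁻¹ * (a * b * (a' * b')) * (b'⁻¹ * b⁻¹) := by group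
      _ = a'⁻¹ * (a⁻¹ * a') * b' * a * b * (b⁻¹ * b'⁻¹) := by
        rw [h5.eq, h4.inv_inv.eq]; group
      _ = _ := by rw [h3.inv_left.eq]; group
  have k4 : Commute a⁻¹ (a'⁻¹ * (b * a' * b⁻¹))⁻¹ := by
    rw [k3]
    refine ((Commute.refl _).mul_right ?_).inv_right
    exact cm k2.inv_right rfl (by group)
  have k5 : Commute a'⁻¹ (a'⁻¹ * (b * a' * b⁻¹))⁻¹ := by
    refine ((Commute.refl _).mul_right ?_).inv_right
    exact cm k1.inv_right rfl (by group)
  show a⁻¹ * b * (a'⁻¹ * b') = a'⁻¹ * b' * (a⁻¹ * b)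
  calc _ = a⁻¹ * (a'⁻¹ * (b * a' * b⁻¹))⁻¹ * a'⁻¹ * (b * b') := by group
    _ = (a'⁻¹ * (b * a' * b⁻¹))⁻¹ * (a⁻¹ * a'⁻¹) * (b * b') := by rw [k4.eq]; group
    _ = (a'⁻¹ * (b * a' * b⁻¹))⁻¹ * a'⁻¹ * a⁻¹ * (b' * b) := by
      rw [h3.inv_inv.eq, h4.eq, mul_assoc _ a'⁻¹]
    _ = _ := by rw [← k5.eq, k3]; group

theorem z2_core {a a' G0 G1 e0 e y : P} (r0 : Commute a G1) (r0' : Commute a G0)
    (r1 : Commute (e0 * a) (G1 * y)) (rm : Commute (e⁻¹ * a) (y⁻¹ * G0))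
    (s0 : Commute a' G1) (s0' : Commute a' G0) (s1 : Commute (e0 * a') (G1 * e))
    (sm : Commute (e⁻¹ * a') (e⁻¹ * G0)) (he : Commute e0 e) : Commute y (e0 * e) := by
  have h1 : a * y * a⁻¹ = G1⁻¹ * e0⁻¹ * G1 * y * e0 := by
    calc _ = G1⁻¹ * e0⁻¹ * G1 * G1⁻¹ * e0 * (G1 * a) * y * a⁻¹ := by group
      _ = G1⁻¹ * e0⁻¹ * G1 * G1⁻¹ * (e0 * a * (G1 * y)) * a⁻¹ := by rw [← r0.eq]; group
      _ = _ := by rw [r1.eq]; group
  have h2 : a * y⁻¹ * a⁻¹ = e * y⁻¹ * G0 * e⁻¹ * G0⁻¹ := by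
    calc _ = e * (e⁻¹ * a * (y⁻¹ * G0)) * (a * G0)⁻¹ := by group
      _ = _ := by rw [rm.eq, r0'.eq]; group
  have h3 : G1⁻¹ * e0 * G1 * (a' * e * a'⁻¹) = e * e0 := by
    calc _ = G1⁻¹ * e0 * (G1 * a') * e * a'⁻¹ := by group
      _ = G1⁻¹ * (e0 * a' * (G1 * e)) * a'⁻¹ := by rw [← s0.eq]; group
      _ = _ := by rw [s1.eq]; group
  have h4 : a' * e⁻¹ * a'⁻¹ = G0 * e⁻¹ * G0⁻¹ := by
    calc _ = e * (e⁻¹ * a' * (e⁻¹ * G0)) * (a' * G0)⁻¹ := by group
      _ = _ := by rw [sm.eq, s0'.eq]; group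
  have h5 : a' * e * a'⁻¹ = G0 * e * G0⁻¹ := by
    calc _ = (a' * e⁻¹ * a'⁻¹)⁻¹ := by group
      _ = _ := by rw [h4]; group
  have h6 : y * (e0 * e) * y⁻¹ = G1⁻¹ * e0 * G1 * (G0 * e * G0⁻¹) := by
    calc _ = G1⁻¹ * e0 * G1 * ((G1⁻¹ * e0⁻¹ * G1 * y * e0) * (e * y⁻¹ * G0 * e⁻¹ * G0⁻¹)) *
          (G0 * e * G0⁻¹) := by group
      _ = _ := by rw [← h1, ← h2]; group
  rw [← h5, h3, ← he.eq] at h6
  exact mul_inv_eq_iff_eq_mul.1 h6

end Pool.Agent.ALoop.S
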